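import Pool.Agent.Helper29.SK.Pattern

/-!
Pairs of linear orders avoiding a pattern: classification.
-/

set_option autoImplicit false

namespace Pool.Agent.Helper29.SK

open Pool.Agent.Helper29.C2 Pool.Agent.Helper80.NF Pool.Agent.Helper20.Spectra
  Pool.Agent.Helper20.PV

/-- A universal definition. -/
theorem univN_pairAv {k : ℕ} (hk : 0 < k) (π : Equiv.Perm (Fin k)) :
    UnivN (k + 3) (PairAv π) := by
  refine ⟨fun o e => (∀ b, ¬ o b (Fin.natAdd k 0) (Fin.natAdd k 0)) ∧
    (∀ b, o b (Fin.natAdd k 0) (Fin.natAdd k 1) → o b (Fin.natAdd k 1) (Fin.natAdd k 2) →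
      o b (Fin.natAdd k 0) (Fin.natAdd k 2)) ∧
    (∀ b, ¬ e (Fin.natAdd k 0) (Fin.natAdd k 1) →
      o b (Fin.natAdd k 0) (Fin.natAdd k 1) ∨ o b (Fin.natAdd k 1) (Fin.natAdd k 0)) ∧
    ¬ ((∀ i j : Fin k, i < j → o true (Fin.castAdd 3 i) (Fin.castAdd 3 j)) ∧
      ∀ i j : Fin k, π i < π j → o false (Fin.castAdd 3 i) (Fin.castAdd 3 j)), fun A R => ?_⟩
  constructor
  · rintro ⟨h1, h2⟩ v
    exact ⟨fun b => (h1 b).irr _, fun b => (h1 b).trans _ _ _, fun b => (h1 b).total _ _,
      fun h3 => h2 ⟨fun i => v (Fin.castAdd 3 i), h3⟩⟩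
  · intro h
    have app : ∀ (v : Fin k → A) (w : Fin 3 → A) (i : Fin 3),
        Fin.append v w (Fin.natAdd k i) = w i := fun v w i => Fin.append_right v w i
    refine ⟨fun b => ⟨fun x => ?_, fun x y z => ?_, fun x y => ?_⟩, ?_⟩
    · exact (h (fun _ => x)).1 b
    · have := (h (Fin.append (fun _ => x) ![x, y, z])).2.1 b
      simp only [app] at this
      exact this
    · have := (h (Fin.append (fun _ => x) ![x, y, x])).2.2.1 b
      simp only [app] at this
      exact this
    · rintro ⟨v, h3, h4⟩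
      refine (h (Fin.append v (fun _ => v ⟨0, hk⟩))).2.2.2 ⟨fun i j hij => ?_, fun i j hij => ?_⟩
      · beta_reduce
        rw [Fin.append_left, Fin.append_left]
        exact h3 i j hij
      · beta_reduce
        rw [Fin.append_left, Fin.append_left]
        exact h4 i j hij

theorem four (x0 x1 x2 x3 : ℕ) (h01 : x0 ≠ x1) (h02 : x0 ≠ x2) (h03 : x0 ≠ x3) (h12 : x1 ≠ x2)
    (h13 : x1 ≠ x3) (h23 : x2 ≠ x3) :
    ((x0 < x1 ∧ x1 < x2) ∨ (x0 < x1 ∧ x1 < x3) ∨ (x0 < x2 ∧ x2 < x3) ∨ (x1 < x2 ∧ x2 < x3)) ∨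
    ((x2 < x1 ∧ x1 < x0) ∨ (x3 < x1 ∧ x1 < x0) ∨ (x3 < x2 ∧ x2 < x0) ∨ (x3 < x2 ∧ x2 < x1)) ∨
    ((x1 < x0 ∧ x0 < x3 ∧ x3 < x2) ∨ (x2 < x3 ∧ x3 < x0 ∧ x0 < x1) ∨
      (x2 < x0 ∧ x0 < x3 ∧ x3 < x1) ∨ (x1 < x3 ∧ x3 < x0 ∧ x0 < x2)) := by
  rcases lt_or_gt_of_ne h01 with a | a <;> rcases lt_or_gt_of_ne h02 with b | b <;>
    rcases lt_or_gt_of_ne h03 with c | c <;> rcases lt_or_gt_of_ne h12 with d | d <;>
    rcases lt_or_gt_of_ne h13 with e | e <;> rcases lt_or_gt_of_ne h23 with f | f <;>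
    first
    | (exfalso; omega)
    | exact Or.inl (Or.inl ⟨a, d⟩)
    | exact Or.inl (Or.inr (Or.inl ⟨a, e⟩))
    | exact Or.inl (Or.inr (Or.inr (Or.inl ⟨b, f⟩)))
    | exact Or.inl (Or.inr (Or.inr (Or.inr ⟨d, f⟩)))
    | exact Or.inr (Or.inl (Or.inl ⟨d, a⟩))
    | exact Or.inr (Or.inl (Or.inr (Or.inl ⟨e, a⟩)))
    | exact Or.inr (Or.inl (Or.inr (Or.inr (Or.inl ⟨f, b⟩))))
    | exact Or.inr (Or.inl (Or.inr (Or.inr (Or.inr ⟨f, d⟩))))
    | exact Or.inr (Or.inr (Or.inl ⟨a, c, f⟩))
    | exact Or.inr (Or.inr (Or.inr (Or.inl ⟨f, c, a⟩)))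
    | exact Or.inr (Or.inr (Or.inr (Or.inr (Or.inl ⟨b, c, e⟩))))
    | exact Or.inr (Or.inr (Or.inr (Or.inr (Or.inr ⟨e, c, b⟩))))

/-- The short patterns for which the class is tame. -/
def Short {k : ℕ} (π : Equiv.Perm (Fin k)) : Prop :=
  k ≤ 2 ∨ (k = 3 ∧ ¬ Monotone π ∧ ¬ Antitone π)

theorem long_cases {k : ℕ} {π : Equiv.Perm (Fin k)} (h : ¬ Short π) :
    (∃ i j l : Fin k, i < j ∧ j < l ∧ π i < π j ∧ π j < π l) ∨
    (∃ i j l : Fin k, i < j ∧ j < l ∧ π l < π j ∧ π j < π i) ∨
    ∃ a b c d : Fin k, a < b ∧ b < c ∧ c < d ∧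
      ((π b < π a ∧ π a < π d ∧ π d < π c) ∨ (π c < π d ∧ π d < π a ∧ π a < π b) ∨
        (π c < π a ∧ π a < π d ∧ π d < π b) ∨ (π b < π d ∧ π d < π a ∧ π a < π c)) := by
  unfold Short at h
  push Not at h
  obtain ⟨hk, h3⟩ := h
  have hne : ∀ i j : Fin k, i ≠ j → (π i).1 ≠ (π j).1 := fun i j hij e =>
    hij (π.injective (Fin.ext e))
  by_cases hk3 : k = 3
  · subst hk3
    by_cases hm : Monotone π
    · left
      exact ⟨0, 1, 2, by decide, by decide, lt_of_le_of_ne (hm (by decide))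
        (fun e => absurd (π.injective e) (by decide)), lt_of_le_of_ne (hm (by decide))
        (fun e => absurd (π.injective e) (by decide))⟩
    · right; left
      have ha := h3 rfl hm
      exact ⟨0, 1, 2, by decide, by decide, lt_of_le_of_ne (ha (by decide))
        (fun e => absurd (π.injective e) (by decide)), lt_of_le_of_ne (ha (by decide))
        (fun e => absurd (π.injective e) (by decide))⟩
  · let a : Fin k := ⟨0, by omega⟩
    let b : Fin k := ⟨1, by omega⟩
    let c : Fin k := ⟨2, by omega⟩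
    let d : Fin k := ⟨3, by omega⟩
    have ab : a < b := by simp [a, b]
    have bc : b < c := by simp [b, c]
    have cd : c < d := by simp [c, d]
    have ac : a < c := ab.trans bc
    have ad : a < d := ac.trans cd
    have bd : b < d := bc.trans cd
    rcases four (π a).1 (π b).1 (π c).1 (π d).1 (hne _ _ ab.ne) (hne _ _ ac.ne) (hne _ _ ad.ne)
      (hne _ _ bc.ne) (hne _ _ bd.ne) (hne _ _ cd.ne) with h | h | h
    · left
      rcases h with h | h | h | h
      · exact ⟨a, b, c, ab, bc, h.1, h.2⟩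
      · exact ⟨a, b, d, ab, bd, h.1, h.2⟩
      · exact ⟨a, c, d, ac, cd, h.1, h.2⟩
      · exact ⟨b, c, d, bc, cd, h.1, h.2⟩
    · right; left
      rcases h with h | h | h | h
      · exact ⟨a, b, c, ab, bc, h.1, h.2⟩
      · exact ⟨a, b, d, ab, bd, h.1, h.2⟩
      · exact ⟨a, c, d, ac, cd, h.1, h.2⟩
      · exact ⟨b, c, d, bc, cd, h.1, h.2⟩
    · right; right
      exact ⟨a, b, c, d, ab, bc, cd, h⟩

/-- Two agreeing sequences contain no decreasing triple. -/
theorem agree_no321 {A : Type} {R : Bool → A → A → Prop} {T : A → Prop}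
    (hlin : ∀ b, IsLin (R b)) (hT : ∀ x y, (T x ↔ T y) → (R true x y ↔ R false x y)) (x y z : A)
    (h1 : R true x y) (h2 : R true y z) (h3 : R false z y) (h4 : R false y x) : False := by
  have key : ∀ u v, (T u ↔ T v) → R true u v → R false v u → False := fun u v h h5 h6 =>
    (hlin false).irr _ ((hlin false).trans _ _ _ ((hT u v h).1 h5) h6)
  by_cases hx : T x <;> by_cases hy : T y <;> by_cases hz : T z
  · exact key x y (iff_of_true hx hy) h1 h4
  · exact key x y (iff_of_true hx hy) h1 h4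
  · exact key x z (iff_of_true hx hz) ((hlin true).trans _ _ _ h1 h2)
      ((hlin false).trans _ _ _ h3 h4)
  · exact key y z (iff_of_false hy hz) h2 h3
  · exact key y z (iff_of_true hy hz) h2 h3
  · exact key x z (iff_of_false hx hz) ((hlin true).trans _ _ _ h1 h2)
      ((hlin false).trans _ _ _ h3 h4)
  · exact key x y (iff_of_false hx hy) h1 h4
  · exact key x y (iff_of_false hx hy) h1 h4

/-- **All other patterns: universality.** -/
theorem univ_pairAv {k : ℕ} {π : Equiv.Perm (Fin k)} (h : ¬ Short π) :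
    Univ (C2Spectrum (PairAv π)) := by
  rcases long_cases h with ⟨i, j, l, hij, hjl, h1, h2⟩ | ⟨i, j, l, hij, hjl, h1, h2⟩ |
    ⟨a, b, c, d, hab, hbc, hcd, h1 | h1 | h1 | h1⟩
  · -- 123
    refine univ_rev (univ_of_agree (fun n R hR b => ?_) (fun n R T hlin hT => ?_))
    · have := rv_lin hR.1 b
      rwa [rv_rv] at this
    · refine ⟨rv_lin hlin, ?_⟩
      rintro ⟨v, h3, h4⟩
      exact agree_no321 hlin hT (v i) (v j) (v l) (h3 _ _ hij) (h3 _ _ hjl) (h4 _ _ h2)
        (h4 _ _ h1)
  · -- 321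
    refine univ_of_agree (fun n R hR b => hR.1 b) (fun n R T hlin hT => ⟨hlin, ?_⟩)
    rintro ⟨v, h3, h4⟩
    exact agree_no321 hlin hT (v i) (v j) (v l) (h3 _ _ hij) (h3 _ _ hjl) (h4 _ _ h1)
      (h4 _ _ h2)
  · -- 2143
    refine univ_of_skew (fun n R hR b => hR.1 b) (fun N hN => ⟨skR_lin hN, ?_⟩)
    rintro ⟨v, h3, h4⟩
    exact av2143 (Nat.le_mul_of_pos_right N hN) (v a) (v b) (v c) (v d) (h3 _ _ hab)
      (h3 _ _ hbc) (h3 _ _ hcd) (h4 _ _ h1.1) (h4 _ _ h1.2.1) (h4 _ _ h1.2.2)
  · -- 3412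
    refine univ_of_skew (fun n R hR b => hR.1 b) (fun N hN => ⟨skR_lin hN, ?_⟩)
    rintro ⟨v, h3, h4⟩
    exact av3412 (Nat.le_mul_of_pos_right N hN) (v a) (v b) (v c) (v d) (h3 _ _ hab)
      (h3 _ _ hbc) (h3 _ _ hcd) (h4 _ _ h1.1) (h4 _ _ h1.2.1) (h4 _ _ h1.2.2)
  · -- 2413
    refine univ_of_skew (fun n R hR b => hR.1 b) (fun N hN => ⟨skR_lin hN, ?_⟩)
    rintro ⟨v, h3, h4⟩
    exact av2413 hN (Nat.le_mul_of_pos_right N hN) (v a) (v b) (v c) (v d) (h3 _ _ hab)
      (h3 _ _ hbc) (h3 _ _ hcd) (h4 _ _ h1.1) (h4 _ _ h1.2.1) (h4 _ _ h1.2.2)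
  · -- 3142
    refine univ_rev (univ_of_skew (fun n R hR b => ?_) (fun N hN => ⟨rv_lin (skR_lin hN), ?_⟩))
    · have := rv_lin hR.1 b
      rwa [rv_rv] at this
    · rintro ⟨v, h3, h4⟩
      exact av2413 hN (Nat.le_mul_of_pos_right N hN) (v a) (v b) (v c) (v d) (h3 _ _ hab)
        (h3 _ _ hbc) (h3 _ _ hcd) (h4 _ _ h1.2.2) (h4 _ _ h1.2.1) (h4 _ _ h1.1)

/-- **All other patterns.** -/
theorem wild_pairAv {k : ℕ} {π : Equiv.Perm (Fin k)} (h : ¬ Short π) :
    (∃ U : Set ℕ, C2Spectrum (PairAv π) U ∧ ∀ A : Set ℕ, IsSpectrum A ↔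
      ∃ h : Polynomial ℕ, A = {n : ℕ | 1 ≤ n ∧ h.eval n ∈ U}) ∧
    ((∀ A : Set ℕ, C2Spectrum (PairAv π) A → IsRudimentary A) ↔
      ∀ A : Set ℕ, IsSpectrum A ↔ (IsRudimentary A ∧ 0 ∉ A)) := by
  have hk : 0 < k := by
    by_contra hk
    exact h (Or.inl (by omega))
  exact wild_of_univ (univ_pairAv h) fun _ hS => c2Spectrum_isSpectrum (univN_pairAv hk π) hS

/-! ### The short patterns -/

theorem trip {A : Type} (π : Equiv.Perm (Fin 3)) (R2 : A → A → Prop) (x y z : A)
    (h01 : π 0 < π 1 → R2 x y) (h10 : π 1 < π 0 → R2 y x) (h02 : π 0 < π 2 → R2 x z)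
    (h20 : π 2 < π 0 → R2 z x) (h12 : π 1 < π 2 → R2 y z) (h21 : π 2 < π 1 → R2 z y) :
    ∀ i j, π i < π j → R2 (![x, y, z] i) (![x, y, z] j) := by
  intro i j
  fin_cases i <;> fin_cases j
  · exact fun h => absurd h (lt_irrefl _)
  · exact h01
  · exact h02
  · exact h10
  · exact fun h => absurd h (lt_irrefl _)
  · exact h12
  · exact h20
  · exact h21
  · exact fun h => absurd h (lt_irrefl _)

theorem trip' {A : Type} (R1 : A → A → Prop) (x y z : A) (h01 : R1 x y) (h12 : R1 y z)
    (h02 : R1 x z) : ∀ i j : Fin 3, i < j → R1 (![x, y, z] i) (![x, y, z] j) := by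
  intro i j h
  fin_cases i <;> fin_cases j
  · exact absurd h (by decide)
  · exact h01
  · exact h02
  · exact absurd h (by decide)
  · exact absurd h (by decide)
  · exact h12
  · exact absurd h (by decide)
  · exact absurd h (by decide)
  · exact absurd h (by decide)

/-- A triple of elements realises a pattern of length three. -/
theorem not_avoids3 {A : Type} {R : Bool → A → A → Prop} (hlin : ∀ b, IsLin (R b))
    (π : Equiv.Perm (Fin 3)) (x y z : A) (t1 : R true x y) (t2 : R true y z)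
    (h01 : π 0 < π 1 → R false x y) (h10 : π 1 < π 0 → R false y x)
    (h02 : π 0 < π 2 → R false x z) (h20 : π 2 < π 0 → R false z x)
    (h12 : π 1 < π 2 → R false y z) (h21 : π 2 < π 1 → R false z y) : ¬ Avoids π R := by
  intro h
  exact h ⟨![x, y, z], trip' _ x y z t1 t2 ((hlin true).trans _ _ _ t1 t2),
    trip π _ x y z h01 h10 h02 h20 h12 h21⟩

/-- **The short patterns.** -/
theorem separable_of_short {k : ℕ} (hk : 0 < k) {π : Equiv.Perm (Fin k)} (h : Short π) {A : Type}
    {R : Bool → A → A → Prop} (hR : PairAv π A R) : Separable R := by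
  obtain ⟨hlin, hav⟩ := hR
  have key : ∀ a b c d, R true a b → R true b c → R true c d →
      ((R false c a ∧ R false a d ∧ R false d b) ∨ (R false b d ∧ R false d a ∧ R false a c)) →
      ¬ Avoids π R := by
    intro a b c d t1 t2 t3 hf
    have tt := (hlin true).trans
    have tf := (hlin false).trans
    rcases h with h | ⟨rfl, h3, h4⟩
    · obtain rfl | rfl : k = 1 ∨ k = 2 := by omega
      · intro h
        refine h ⟨fun _ => a, fun i j hij => ?_, fun i j hij => ?_⟩
        · exact absurd hij (by rw [Subsingleton.elim i j]; exact lt_irrefl _)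
        · exact absurd hij (by rw [Subsingleton.elim i j]; exact lt_irrefl _)
      · -- length two
        have h2 : ∀ x y, R true x y → (π 0 < π 1 → R false x y) → (π 1 < π 0 → R false y x) →
            ¬ Avoids π R := by
          intro x y h5 h6 h7 h8
          refine h8 ⟨![x, y], fun i j hij => ?_, fun i j hij => ?_⟩
          · fin_cases i <;> fin_cases j
            · exact absurd hij (by decide)
            · exact h5
            · exact absurd hij (by decide)
            · exact absurd hij (by decide)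
          · fin_cases i <;> fin_cases j
            · exact absurd hij (lt_irrefl _)
            · exact h6 hij
            · exact h7 hij
            · exact absurd hij (lt_irrefl _)
        by_cases hp : π 0 < π 1
        · rcases hf with ⟨f1, f2, f3⟩ | ⟨f1, f2, f3⟩
          · exact h2 a d (tt _ _ _ (tt _ _ _ t1 t2) t3) (fun _ => f2)
              (fun h => absurd h (not_lt_of_gt hp))
          · exact h2 a c (tt _ _ _ t1 t2) (fun _ => f3) (fun h => absurd h (not_lt_of_gt hp))
        · rcases hf with ⟨f1, f2, f3⟩ | ⟨f1, f2, f3⟩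
          · exact h2 a c (tt _ _ _ t1 t2) (fun h => absurd h hp) (fun _ => f1)
          · exact h2 a d (tt _ _ _ (tt _ _ _ t1 t2) t3) (fun h => absurd h hp) (fun _ => f2)
    · -- length three
      have hne : ∀ i j : Fin 3, i ≠ j → π i ≠ π j := fun i j hij e => hij (π.injective e)
      have n01 := hne 0 1 (by decide)
      have n02 := hne 0 2 (by decide)
      have n12 := hne 1 2 (by decide)
      have hm1 : ¬ (π 0 < π 1 ∧ π 1 < π 2) := by
        rintro ⟨h5, h6⟩
        refine h3 (fun i j hij => ?_)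
        have h7 := h5.trans h6
        fin_cases i <;> fin_cases j
        · exact le_rfl
        · exact h5.le
        · exact h7.le
        · exact absurd hij (by decide)
        · exact le_rfl
        · exact h6.le
        · exact absurd hij (by decide)
        · exact absurd hij (by decide)
        · exact le_rfl
      have hm2 : ¬ (π 1 < π 0 ∧ π 2 < π 1) := by
        rintro ⟨h5, h6⟩
        refine h4 (fun i j hij => ?_)
        have h7 := h6.trans h5
        fin_cases i <;> fin_cases j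
        · exact le_rfl
        · exact h5.le
        · exact h7.le
        · exact absurd hij (by decide)
        · exact le_rfl
        · exact h6.le
        · exact absurd hij (by decide)
        · exact absurd hij (by decide)
        · exact le_rfl
      rcases lt_or_gt_of_ne n01 with p01 | p01
      · have p12 : π 2 < π 1 := (lt_or_gt_of_ne n12).resolve_left (fun h5 => hm1 ⟨p01, h5⟩)
        rcases lt_or_gt_of_ne n02 with p02 | p02
        · -- 132
          rcases hf with ⟨f1, f2, f3⟩ | ⟨f1, f2, f3⟩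
          · exact not_avoids3 hlin π a b d t1 (tt _ _ _ t2 t3) (fun _ => tf _ _ _ f2 f3)
              (fun h => absurd h (not_lt_of_gt p01)) (fun _ => f2)
              (fun h => absurd h (not_lt_of_gt p02)) (fun h => absurd h (not_lt_of_gt p12))
              (fun _ => f3)
          · exact not_avoids3 hlin π b c d t2 t3 (fun _ => tf _ _ _ f1 (tf _ _ _ f2 f3))
              (fun h => absurd h (not_lt_of_gt p01)) (fun _ => f1)
              (fun h => absurd h (not_lt_of_gt p02)) (fun h => absurd h (not_lt_of_gt p12))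
              (fun _ => tf _ _ _ f2 f3)
        · -- 231
          rcases hf with ⟨f1, f2, f3⟩ | ⟨f1, f2, f3⟩
          · exact not_avoids3 hlin π a b c t1 t2 (fun _ => tf _ _ _ f2 f3)
              (fun h => absurd h (not_lt_of_gt p01)) (fun h => absurd h (not_lt_of_gt p02))
              (fun _ => f1) (fun h => absurd h (not_lt_of_gt p12))
              (fun _ => tf _ _ _ f1 (tf _ _ _ f2 f3))
          · exact not_avoids3 hlin π a c d (tt _ _ _ t1 t2) t3 (fun _ => f3)
              (fun h => absurd h (not_lt_of_gt p01)) (fun h => absurd h (not_lt_of_gt p02))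
              (fun _ => f2) (fun h => absurd h (not_lt_of_gt p12)) (fun _ => tf _ _ _ f2 f3)
      · have p12 : π 1 < π 2 := (lt_or_gt_of_ne n12).resolve_right (fun h5 => hm2 ⟨p01, h5⟩)
        rcases lt_or_gt_of_ne n02 with p02 | p02
        · -- 213
          rcases hf with ⟨f1, f2, f3⟩ | ⟨f1, f2, f3⟩
          · exact not_avoids3 hlin π a c d (tt _ _ _ t1 t2) t3
              (fun h => absurd h (not_lt_of_gt p01)) (fun _ => f1) (fun _ => f2)
              (fun h => absurd h (not_lt_of_gt p02)) (fun _ => tf _ _ _ f1 f2)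
              (fun h => absurd h (not_lt_of_gt p12))
          · exact not_avoids3 hlin π a b c t1 t2 (fun h => absurd h (not_lt_of_gt p01))
              (fun _ => tf _ _ _ f1 f2) (fun _ => f3) (fun h => absurd h (not_lt_of_gt p02))
              (fun _ => tf _ _ _ f1 (tf _ _ _ f2 f3)) (fun h => absurd h (not_lt_of_gt p12))
        · -- 312
          rcases hf with ⟨f1, f2, f3⟩ | ⟨f1, f2, f3⟩
          · exact not_avoids3 hlin π b c d t2 t3 (fun h => absurd h (not_lt_of_gt p01))
              (fun _ => tf _ _ _ f1 (tf _ _ _ f2 f3)) (fun h => absurd h (not_lt_of_gt p02))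
              (fun _ => f3) (fun _ => tf _ _ _ f1 f2) (fun h => absurd h (not_lt_of_gt p12))
          · exact not_avoids3 hlin π a b d t1 (tt _ _ _ t2 t3)
              (fun h => absurd h (not_lt_of_gt p01)) (fun _ => tf _ _ _ f1 f2)
              (fun h => absurd h (not_lt_of_gt p02)) (fun _ => f2) (fun _ => f1)
              (fun h => absurd h (not_lt_of_gt p12))
  exact ⟨hlin, fun a b c d h1 h2 h3 h4 h5 h6 => key a b c d h1 h2 h3 (Or.inl ⟨h4, h5, h6⟩) hav,
    fun a b c d h1 h2 h3 h4 h5 h6 => key a b c d h1 h2 h3 (Or.inr ⟨h4, h5, h6⟩) hav⟩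

/-- **The short patterns are tame.** -/
theorem tame_pairAv {k : ℕ} {π : Equiv.Perm (Fin k)} (h : Short π) : Tame (PairAv π) := by
  rcases Nat.eq_zero_or_pos k with rfl | hk
  · intro U V _ _ Φ Ψ
    refine ⟨1, 0, le_rfl, fun n _ => iff_of_false ?_ ?_⟩
    · rintro ⟨_, M, h1, _⟩
      exact h1.2 ⟨fun i => i.elim0, fun i => i.elim0, fun i => i.elim0⟩
    · rintro ⟨_, M, h1, _⟩
      exact h1.2 ⟨fun i => i.elim0, fun i => i.elim0, fun i => i.elim0⟩
  · exact tame_of_univN sepT (univN_pairAv hk π) fun n R' hn hR =>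
      (separable_of_short hk h hR).sgDef hn

end Pool.Agent.Helper29.SK
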