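import Pool.Agent.Helper29.SK.Sound

/-!
Skew-merged pairs of linear orders coding tilings: completeness.
-/

set_option autoImplicit false

namespace Pool.Agent.Helper29.SK

open Pool.Agent.Helper29.Prefix Pool.Agent.Helper29.C2 Pool.Agent.Helper74.W2O

variable {Γ : Type}

/-- Position in the first order. -/
def k1 (n : ℕ) (x : ℕ) : ℕ :=
  if x % 4 = 0 then 2 * (x / 4) else if x % 4 = 1 then 2 * (x / 4) + 1
  else if x % 4 = 2 then 4 * n - 1 - 2 * (x / 4) else 4 * n - 2 - 2 * (x / 4)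

/-- Position in the second order. -/
def k2 (n N : ℕ) (x : ℕ) : ℕ :=
  if x % 4 = 0 then (if x / 4 < N then x / 4 else 2 * (x / 4) - N)
  else if x % 4 = 1 then 4 * n - 1 - 2 * (x / 4)
  else if x % 4 = 2 then 4 * n - 2 - 2 * (x / 4)
  else if x / 4 + N < n then N + 2 * (x / 4) + 1 else n + x / 4

theorem c1 (n x : ℕ) : (x % 4 = 0 ∧ k1 n x = 2 * (x / 4)) ∨
    (x % 4 = 1 ∧ k1 n x = 2 * (x / 4) + 1) ∨ (x % 4 = 2 ∧ k1 n x = 4 * n - 1 - 2 * (x / 4)) ∨
    (x % 4 = 3 ∧ k1 n x = 4 * n - 2 - 2 * (x / 4)) := by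
  unfold k1
  split_ifs <;> omega

theorem c2 (n N x : ℕ) : (x % 4 = 0 ∧ x / 4 < N ∧ k2 n N x = x / 4) ∨
    (x % 4 = 0 ∧ N ≤ x / 4 ∧ k2 n N x = 2 * (x / 4) - N) ∨
    (x % 4 = 1 ∧ k2 n N x = 4 * n - 1 - 2 * (x / 4)) ∨
    (x % 4 = 2 ∧ k2 n N x = 4 * n - 2 - 2 * (x / 4)) ∨
    (x % 4 = 3 ∧ x / 4 + N < n ∧ k2 n N x = N + 2 * (x / 4) + 1) ∨
    (x % 4 = 3 ∧ n ≤ x / 4 + N ∧ k2 n N x = n + x / 4) := by
  unfold k2
  split_ifs <;> omega

/-- The successor relations of the sides. -/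
def suc (n N : ℕ) (i : Fin 4) (x y : ℕ) : Prop :=
  match i with
  | 0 => (x % 4 = 0 ∨ x % 4 = 1) ∧ (y % 4 = 0 ∨ y % 4 = 1) ∧ k1 n y = k1 n x + 1
  | 1 => (x % 4 = 1 ∨ x % 4 = 2) ∧ (y % 4 = 1 ∨ y % 4 = 2) ∧ k2 n N x = k2 n N y + 1
  | 2 => (x % 4 = 2 ∨ x % 4 = 3) ∧ (y % 4 = 2 ∨ y % 4 = 3) ∧ k1 n x = k1 n y + 1
  | 3 => (x % 4 = 3 ∨ x % 4 = 0) ∧ (y % 4 = 3 ∨ y % 4 = 0) ∧ k2 n N y = k2 n N x + 1

/-- The part. -/
def part {m : ℕ} (x : Fin m) : Fin 4 := ⟨x.1 % 4, Nat.mod_lt _ (by norm_num)⟩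

theorem part_eq {m : ℕ} (x : Fin m) (i : Fin 4) : part x = i ↔ x.1 % 4 = i.1 := Fin.ext_iff

section

variable {n N : ℕ}

theorem k1_inj {x y : ℕ} (hx : x < 4 * n) (hy : y < 4 * n) (h : k1 n x = k1 n y) : x = y := by
  rcases c1 n x with h1 | h1 | h1 | h1 <;> rcases c1 n y with h2 | h2 | h2 | h2 <;> omega

theorem k2_inj (hN : N ≤ n) {x y : ℕ} (hx : x < 4 * n) (hy : y < 4 * n)
    (h : k2 n N x = k2 n N y) : x = y := by
  rcases c2 n N x with h1 | h1 | h1 | h1 | h1 | h1 <;>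
    rcases c2 n N y with h2 | h2 | h2 | h2 | h2 | h2 <;> omega

theorem suc0 {x : ℕ} (hx : x < 4 * n) (hs : x % 4 = 0 ∨ x % 4 = 1)
    (h : ∀ y, y < 4 * n → ¬ suc n N 0 x y) : x % 4 = 1 ∧ x / 4 + 1 = n := by
  by_contra hcon
  rcases hs with hs | hs
  · refine h (x + 1) (by omega) ⟨Or.inl hs, Or.inr (by omega), ?_⟩
    rcases c1 n x with h1 | h1 | h1 | h1 <;> rcases c1 n (x + 1) with h2 | h2 | h2 | h2 <;> omega
  · refine h (x + 3) (by omega) ⟨Or.inr hs, Or.inl (by omega), ?_⟩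
    rcases c1 n x with h1 | h1 | h1 | h1 <;> rcases c1 n (x + 3) with h2 | h2 | h2 | h2 <;> omega

theorem pre0 {x : ℕ} (hx : x < 4 * n) (hs : x % 4 = 0 ∨ x % 4 = 1)
    (h : ∀ y, y < 4 * n → ¬ suc n N 0 y x) : x = 0 := by
  by_contra hcon
  rcases hs with hs | hs
  · refine h (x - 3) (by omega) ⟨Or.inr (by omega), Or.inl hs, ?_⟩
    rcases c1 n x with h1 | h1 | h1 | h1 <;> rcases c1 n (x - 3) with h2 | h2 | h2 | h2 <;> omega
  · refine h (x - 1) (by omega) ⟨Or.inl (by omega), Or.inr hs, ?_⟩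
    rcases c1 n x with h1 | h1 | h1 | h1 <;> rcases c1 n (x - 1) with h2 | h2 | h2 | h2 <;> omega

theorem suc1 {x : ℕ} (hx : x < 4 * n) (hs : x % 4 = 1 ∨ x % 4 = 2)
    (h : ∀ y, y < 4 * n → ¬ suc n N 1 x y) : x % 4 = 2 ∧ x / 4 + 1 = n := by
  by_contra hcon
  rcases hs with hs | hs
  · refine h (x + 1) (by omega) ⟨Or.inl hs, Or.inr (by omega), ?_⟩
    rcases c2 n N x with h1 | h1 | h1 | h1 | h1 | h1 <;>
      rcases c2 n N (x + 1) with h2 | h2 | h2 | h2 | h2 | h2 <;> omega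
  · refine h (x + 3) (by omega) ⟨Or.inr hs, Or.inl (by omega), ?_⟩
    rcases c2 n N x with h1 | h1 | h1 | h1 | h1 | h1 <;>
      rcases c2 n N (x + 3) with h2 | h2 | h2 | h2 | h2 | h2 <;> omega

theorem pre1 {x : ℕ} (hx : x < 4 * n) (hs : x % 4 = 1 ∨ x % 4 = 2)
    (h : ∀ y, y < 4 * n → ¬ suc n N 1 y x) : x = 1 := by
  by_contra hcon
  rcases hs with hs | hs
  · refine h (x - 3) (by omega) ⟨Or.inr (by omega), Or.inl hs, ?_⟩
    rcases c2 n N x with h1 | h1 | h1 | h1 | h1 | h1 <;>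
      rcases c2 n N (x - 3) with h2 | h2 | h2 | h2 | h2 | h2 <;> omega
  · refine h (x - 1) (by omega) ⟨Or.inl (by omega), Or.inr hs, ?_⟩
    rcases c2 n N x with h1 | h1 | h1 | h1 | h1 | h1 <;>
      rcases c2 n N (x - 1) with h2 | h2 | h2 | h2 | h2 | h2 <;> omega

theorem suc2 {x : ℕ} (hx : x < 4 * n) (hs : x % 4 = 2 ∨ x % 4 = 3)
    (h : ∀ y, y < 4 * n → ¬ suc n N 2 x y) : x % 4 = 3 ∧ x / 4 + 1 = n := by
  by_contra hcon
  rcases hs with hs | hs
  · refine h (x + 1) (by omega) ⟨Or.inl hs, Or.inr (by omega), ?_⟩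
    rcases c1 n x with h1 | h1 | h1 | h1 <;> rcases c1 n (x + 1) with h2 | h2 | h2 | h2 <;> omega
  · refine h (x + 3) (by omega) ⟨Or.inr hs, Or.inl (by omega), ?_⟩
    rcases c1 n x with h1 | h1 | h1 | h1 <;> rcases c1 n (x + 3) with h2 | h2 | h2 | h2 <;> omega

theorem pre2 {x : ℕ} (hx : x < 4 * n) (hs : x % 4 = 2 ∨ x % 4 = 3)
    (h : ∀ y, y < 4 * n → ¬ suc n N 2 y x) : x = 2 := by
  by_contra hcon
  rcases hs with hs | hs
  · refine h (x - 3) (by omega) ⟨Or.inr (by omega), Or.inl hs, ?_⟩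
    rcases c1 n x with h1 | h1 | h1 | h1 <;> rcases c1 n (x - 3) with h2 | h2 | h2 | h2 <;> omega
  · refine h (x - 1) (by omega) ⟨Or.inl (by omega), Or.inr hs, ?_⟩
    rcases c1 n x with h1 | h1 | h1 | h1 <;> rcases c1 n (x - 1) with h2 | h2 | h2 | h2 <;> omega

/-- All positions of the bottom side are taken. -/
theorem sur3 (hN : 1 ≤ N) (hn : N ≤ n) {i : ℕ} (hi : i < 2 * n) :
    ∃ y, y < 4 * n ∧ (y % 4 = 3 ∨ y % 4 = 0) ∧ k2 n N y = i := by
  by_cases h1 : i < N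
  · refine ⟨4 * i, by omega, Or.inr (by omega), ?_⟩
    rcases c2 n N (4 * i) with h2 | h2 | h2 | h2 | h2 | h2 <;> omega
  · by_cases h2 : i < 2 * n - N
    · by_cases h3 : (i + N) % 2 = 0
      · refine ⟨4 * ((i + N) / 2), by omega, Or.inr (by omega), ?_⟩
        rcases c2 n N (4 * ((i + N) / 2)) with h2 | h2 | h2 | h2 | h2 | h2 <;> omega
      · refine ⟨4 * ((i - N - 1) / 2) + 3, by omega, Or.inl (by omega), ?_⟩
        rcases c2 n N (4 * ((i - N - 1) / 2) + 3) with h2 | h2 | h2 | h2 | h2 | h2 <;> omega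
    · refine ⟨4 * (i - n) + 3, by omega, Or.inl (by omega), ?_⟩
      rcases c2 n N (4 * (i - n) + 3) with h2 | h2 | h2 | h2 | h2 | h2 <;> omega

theorem suc3 (hN : 1 ≤ N) (hn : N ≤ n) {x : ℕ} (hx : x < 4 * n) (hs : x % 4 = 3 ∨ x % 4 = 0)
    (h : ∀ y, y < 4 * n → ¬ suc n N 3 x y) : k2 n N x + 1 = 2 * n := by
  by_contra hcon
  have h0 : k2 n N x < 2 * n := by
    rcases c2 n N x with h1 | h1 | h1 | h1 | h1 | h1 <;> omega
  obtain ⟨y, hy, hys, hk⟩ := sur3 hN hn (i := k2 n N x + 1) (by omega)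
  exact h y hy ⟨hs, hys, hk⟩

theorem pre3 (hN : 1 ≤ N) (hn : N ≤ n) {x : ℕ} (hx : x < 4 * n) (hs : x % 4 = 3 ∨ x % 4 = 0)
    (h : ∀ y, y < 4 * n → ¬ suc n N 3 y x) : k2 n N x = 0 := by
  by_contra hcon
  have h0 : k2 n N x < 2 * n := by
    rcases c2 n N x with h1 | h1 | h1 | h1 | h1 | h1 <;> omega
  obtain ⟨y, hy, hys, hk⟩ := sur3 hN hn (i := k2 n N x - 1) (by omega)
  exact h y hy ⟨hys, hs, by omega⟩

end

/-- **Completeness.** -/
theorem sax_of_wd {W : Wang Γ} {n N : ℕ} {w : ℕ → Lt Γ} (H : Wd W n N w) :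
    SAx W (fun x y : Fin (4 * n) => k1 n x < k1 n y) (fun x y : Fin (4 * n) => k2 n N x < k2 n N y)
      (fun i x y => suc n N i x y) part (fun x => w (x.1 / 4))
      (fun x => x.1 % 4 = 0 ∧ x.1 / 4 < N) (fun x => x.1 % 4 = 3 ∧ n ≤ x.1 / 4 + N) := by
  have hN := H.hN
  have hn := H.hn
  have hs : ∀ (i : Fin 4) (x : Fin (4 * n)), side part i x ↔ (x.1 % 4 = i.1 ∨
      x.1 % 4 = (i + 1).1) := by
    intro i x
    unfold side
    rw [part_eq, part_eq]
  have fw : ∀ (i : Fin 4) (x : Fin (4 * n)), (∀ y : Fin (4 * n), ¬ suc n N i x y) →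
      ∀ y, y < 4 * n → ¬ suc n N i x y := fun i x h y hy => h ⟨y, hy⟩
  have bw : ∀ (i : Fin 4) (x : Fin (4 * n)), (∀ y : Fin (4 * n), ¬ suc n N i y x) →
      ∀ y, y < 4 * n → ¬ suc n N i y x := fun i x h y hy => h ⟨y, hy⟩
  constructor
  · -- agI
    intro x y hp hx
    rw [part_eq, part_eq] at hx
    have hp' : x.1 % 4 = y.1 % 4 := (part_eq x _).1 hp
    change x.1 % 4 = 0 ∨ x.1 % 4 = 2 at hx
    have hx' := x.2
    have hy' := y.2
    rcases c1 n x with h1 | h1 | h1 | h1 <;> rcases c1 n y with h2 | h2 | h2 | h2 <;>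
      rcases c2 n N x with h3 | h3 | h3 | h3 | h3 | h3 <;>
      rcases c2 n N y with h4 | h4 | h4 | h4 | h4 | h4 <;> omega
  · -- agD
    intro x y hp hx
    rw [part_eq, part_eq] at hx
    have hp' : x.1 % 4 = y.1 % 4 := (part_eq x _).1 hp
    change x.1 % 4 = 1 ∨ x.1 % 4 = 3 at hx
    have hx' := x.2
    have hy' := y.2
    rcases c1 n x with h1 | h1 | h1 | h1 <;> rcases c1 n y with h2 | h2 | h2 | h2 <;>
      rcases c2 n N x with h3 | h3 | h3 | h3 | h3 | h3 <;>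
      rcases c2 n N y with h4 | h4 | h4 | h4 | h4 | h4 <;> omega
  · -- sd
    intro i x y h
    rw [hs, hs]
    fin_cases i
    · exact ⟨h.1, h.2.1, by show k1 n x < k1 n y; have := h.2.2; omega⟩
    · exact ⟨h.1, h.2.1, by show k2 n N y < k2 n N x; have := h.2.2; omega⟩
    · exact ⟨h.1, h.2.1, by show k1 n y < k1 n x; have := h.2.2; omega⟩
    · exact ⟨h.1, h.2.1, by show k2 n N x < k2 n N y; have := h.2.2; omega⟩
  · -- si
    intro i x x' y h h'
    fin_cases i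
    · exact Fin.ext (k1_inj x.2 x'.2 (by have := h.2.2; have := h'.2.2; omega))
    · exact Fin.ext (k2_inj hn x.2 x'.2 (by have := h.2.2; have := h'.2.2; omega))
    · exact Fin.ext (k1_inj x.2 x'.2 (by have := h.2.2; have := h'.2.2; omega))
    · exact Fin.ext (k2_inj hn x.2 x'.2 (by have := h.2.2; have := h'.2.2; omega))
  · -- se
    intro i x x' hx hx' h h'
    rw [hs] at hx hx'
    fin_cases i
    · have a := suc0 x.2 hx (fw 0 x h)
      have b := suc0 x'.2 hx' (fw 0 x' h')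
      exact Fin.ext (by omega)
    · have a := suc1 x.2 hx (fw 1 x h)
      have b := suc1 x'.2 hx' (fw 1 x' h')
      exact Fin.ext (by omega)
    · have a := suc2 x.2 hx (fw 2 x h)
      have b := suc2 x'.2 hx' (fw 2 x' h')
      exact Fin.ext (by omega)
    · have a := suc3 hN hn x.2 hx (fw 3 x h)
      have b := suc3 hN hn x'.2 hx' (fw 3 x' h')
      exact Fin.ext (k2_inj hn x.2 x'.2 (by omega))
  · -- f
    intro i x hi hx h
    rw [hs] at hx
    rw [part_eq]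
    fin_cases i
    · have a := pre0 x.2 hx (bw 0 x h); show x.1 % 4 = 0; omega
    · have a := pre1 x.2 hx (bw 1 x h); show x.1 % 4 = 1; omega
    · have a := pre2 x.2 hx (bw 2 x h); show x.1 % 4 = 2; omega
    · exact absurd rfl hi
  · -- e
    intro i x hi hx h
    rw [hs] at hx
    rw [Ne, part_eq]
    fin_cases i
    · have a := suc0 x.2 hx (fw 0 x h); show ¬ x.1 % 4 = 0; omega
    · have a := suc1 x.2 hx (fw 1 x h); show ¬ x.1 % 4 = 1; omega
    · have a := suc2 x.2 hx (fw 2 x h); show ¬ x.1 % 4 = 2; omega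
    · exact absurd rfl hi
  · -- a
    intro i x y hi h
    rw [part_eq, part_eq]
    have hx' := x.2
    have hy' := y.2
    fin_cases i
    · obtain ⟨h1, h2, h3⟩ := h
      show x.1 % 4 = 0 ↔ ¬ y.1 % 4 = 0
      rcases c1 n x with h4 | h4 | h4 | h4 <;> rcases c1 n y with h5 | h5 | h5 | h5 <;> omega
    · obtain ⟨h1, h2, h3⟩ := h
      show x.1 % 4 = 1 ↔ ¬ y.1 % 4 = 1
      rcases c2 n N x with h4 | h4 | h4 | h4 | h4 | h4 <;>
        rcases c2 n N y with h5 | h5 | h5 | h5 | h5 | h5 <;> omega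
    · obtain ⟨h1, h2, h3⟩ := h
      show x.1 % 4 = 2 ↔ ¬ y.1 % 4 = 2
      rcases c1 n x with h4 | h4 | h4 | h4 <;> rcases c1 n y with h5 | h5 | h5 | h5 <;> omega
    · exact absurd rfl hi
  · -- l
    intro i x y hi h hx
    rw [part_eq] at hx
    have hx' := x.2
    have hy' := y.2
    have key : x.1 / 4 = y.1 / 4 := by
      fin_cases i
      · obtain ⟨h1, h2, h3⟩ := h
        change x.1 % 4 = 0 at hx
        rcases c1 n x with h4 | h4 | h4 | h4 <;> rcases c1 n y with h5 | h5 | h5 | h5 <;> omega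
      · obtain ⟨h1, h2, h3⟩ := h
        change x.1 % 4 = 1 at hx
        rcases c2 n N x with h4 | h4 | h4 | h4 | h4 | h4 <;>
          rcases c2 n N y with h5 | h5 | h5 | h5 | h5 | h5 <;> omega
      · obtain ⟨h1, h2, h3⟩ := h
        change x.1 % 4 = 2 at hx
        rcases c1 n x with h4 | h4 | h4 | h4 <;> rcases c1 n y with h5 | h5 | h5 | h5 <;> omega
      · exact absurd rfl hi
    show w (x.1 / 4) = w (y.1 / 4)
    rw [key]
  · -- f2
    intro x hx h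
    rw [hs] at hx
    have a := pre0 x.2 hx (bw 0 x h)
    show (w (x.1 / 4)).2.1 = true ∧ (w (x.1 / 4)).2.2.2 = 1 ∧ W.c (w (x.1 / 4)).1
    rw [a]
    exact H.s
  · -- e2
    intro x hx h
    rw [hs] at hx
    have a := suc0 x.2 hx (fw 0 x h)
    show (w (x.1 / 4)).2.2.1 = true ∧ (w (x.1 / 4)).2.2.2 = 1
    rw [show x.1 / 4 = n - 1 by omega]
    exact H.e
  · -- h2
    intro x y h hx
    rw [Ne, part_eq] at hx
    obtain ⟨h1, h2, h3⟩ := h
    have hx' := x.2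
    have hy' := y.2
    change ¬ x.1 % 4 = 0 at hx
    have key : y.1 / 4 = x.1 / 4 + 1 := by
      rcases c1 n x with h4 | h4 | h4 | h4 <;> rcases c1 n y with h5 | h5 | h5 | h5 <;> omega
    show hOK W (w (x.1 / 4)) (w (y.1 / 4))
    rw [key]
    exact H.h _ (by omega)
  · -- f1
    intro x hx h
    rw [hs] at hx
    have a := pre3 hN hn x.2 hx (bw 3 x h)
    have hx' := x.2
    show x.1 % 4 = 0 ∧ x.1 / 4 < N
    rcases c2 n N x with h4 | h4 | h4 | h4 | h4 | h4 <;> omega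
  · -- e1
    intro x hx h
    rw [hs] at hx
    have a := suc3 hN hn x.2 hx (fw 3 x h)
    have hx' := x.2
    show x.1 % 4 = 3 ∧ n ≤ x.1 / 4 + N
    rcases c2 n N x with h4 | h4 | h4 | h4 | h4 | h4 <;> omega
  · -- tA
    intro x h
    rw [part_eq]
    exact h.1
  · -- tZ
    intro x h
    rw [part_eq]
    exact h.1
  · -- aa
    intro x y h hA hla
    obtain ⟨h1, h2, h3⟩ := h
    have hx' := x.2
    have hy' := y.2
    have h4 : ¬ (x : ℕ) / 4 + 1 = N := by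
      rw [← H.l _ hA.2]
      change (w ((x : ℕ) / 4)).2.2.1 = false at hla
      simp [hla]
    have h5 := hA.1
    have h6 := hA.2
    show y.1 % 4 = 0 ∧ y.1 / 4 < N
    rcases c2 n N x with h7 | h7 | h7 | h7 | h7 | h7 <;>
      rcases c2 n N y with h8 | h8 | h8 | h8 | h8 | h8 <;> omega
  · -- ab
    intro x y h hA hla
    obtain ⟨h1, h2, h3⟩ := h
    rw [part_eq]
    have hx' := x.2
    have hy' := y.2
    have h4 : (x : ℕ) / 4 + 1 = N := (H.l _ hA.2).1 hla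
    have h5 := hA.1
    have h6 := hA.2
    show ¬ (y.1 % 4 = 0 ∧ y.1 / 4 < N) ∧ (y.1 % 4 = 0 ∨ (y.1 % 4 = 3 ∧ n ≤ y.1 / 4 + N))
    rcases c2 n N x with h7 | h7 | h7 | h7 | h7 | h7 <;>
      rcases c2 n N y with h8 | h8 | h8 | h8 | h8 | h8 <;> omega
  · -- tt
    intro x y h hx hA
    obtain ⟨h1, h2, h3⟩ := h
    rw [part_eq] at hx
    rw [Ne, part_eq]
    have hx' := x.2
    have hy' := y.2
    change x.1 % 4 = 0 at hx
    change ¬ (x.1 % 4 = 0 ∧ x.1 / 4 < N) at hA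
    have h4 : y.1 % 4 = 3 ∧ y.1 / 4 + N < n ∧ x.1 / 4 = y.1 / 4 + N := by
      rcases c2 n N x with h7 | h7 | h7 | h7 | h7 | h7 <;>
        rcases c2 n N y with h8 | h8 | h8 | h8 | h8 | h8 <;> omega
    show ¬ y.1 % 4 = 0 ∧ ¬ (y.1 % 4 = 3 ∧ n ≤ y.1 / 4 + N) ∧
      vOK W (w (y.1 / 4)) (w (x.1 / 4))
    refine ⟨by omega, by omega, ?_⟩
    rw [h4.2.2]
    exact H.v _ h4.2.1
  · -- bb
    intro x y h hx hZ
    obtain ⟨h1, h2, h3⟩ := h
    rw [Ne, part_eq] at hx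
    rw [part_eq]
    have hx' := x.2
    have hy' := y.2
    change ¬ x.1 % 4 = 0 at hx
    change ¬ (x.1 % 4 = 3 ∧ n ≤ x.1 / 4 + N) at hZ
    show ¬ (y.1 % 4 = 0 ∧ y.1 / 4 < N) ∧ (y.1 % 4 = 0 ∨ (y.1 % 4 = 3 ∧ n ≤ y.1 / 4 + N))
    rcases c2 n N x with h7 | h7 | h7 | h7 | h7 | h7 <;>
      rcases c2 n N y with h8 | h8 | h8 | h8 | h8 | h8 <;> omega
  · -- zz
    intro x y h hZ
    obtain ⟨h1, h2, h3⟩ := h
    have hx' := x.2
    have hy' := y.2
    have h5 := hZ.1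
    have h6 := hZ.2
    show y.1 % 4 = 3 ∧ n ≤ y.1 / 4 + N
    rcases c2 n N x with h7 | h7 | h7 | h7 | h7 | h7 <;>
      rcases c2 n N y with h8 | h8 | h8 | h8 | h8 | h8 <;> omega
  · -- u
    intro x
    have hx' := x.2
    exact H.u _ (by omega)
  · exact fun x h => H.b _ h.2
  · intro x h
    have hx' := x.2
    exact H.t _ (by omega) h.2

theorem lin_k1 (n : ℕ) : IsLin (fun x y : Fin (4 * n) => k1 n x < k1 n y) :=
  ⟨fun x => lt_irrefl _, fun x y z => lt_trans, fun x y h => by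
    have h1 : k1 n x ≠ k1 n y := fun e => h (Fin.ext (k1_inj x.2 y.2 e))
    exact lt_or_gt_of_ne h1⟩

theorem lin_k2 {n N : ℕ} (hn : N ≤ n) :
    IsLin (fun x y : Fin (4 * n) => k2 n N x < k2 n N y) :=
  ⟨fun x => lt_irrefl _, fun x y z => lt_trans, fun x y h => by
    have h1 : k2 n N x ≠ k2 n N y := fun e => h (Fin.ext (k2_inj hn x.2 y.2 e))
    exact lt_or_gt_of_ne h1⟩

/-! ### Forbidden patterns -/

/-- No 2143. -/
theorem av2143 {n N : ℕ} (hn : N ≤ n) (a b c d : Fin (4 * n)) (h1 : k1 n a < k1 n b)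
    (h2 : k1 n b < k1 n c) (h3 : k1 n c < k1 n d) (h4 : k2 n N b < k2 n N a)
    (h5 : k2 n N a < k2 n N d) (h6 : k2 n N d < k2 n N c) : False := by
  have I : ∀ x y : Fin (4 * n), (x.1 % 4 = 0 ∨ x.1 % 4 = 2) → (y.1 % 4 = 0 ∨ y.1 % 4 = 2) →
      k1 n x < k1 n y → k2 n N x < k2 n N y := by
    intro x y hx hy h
    have hx' := x.2
    have hy' := y.2
    rcases c1 n x with h1 | h1 | h1 | h1 <;> rcases c1 n y with h2 | h2 | h2 | h2 <;>
      rcases c2 n N x with h3 | h3 | h3 | h3 | h3 | h3 <;>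
      rcases c2 n N y with h4 | h4 | h4 | h4 | h4 | h4 <;> omega
  have D : ∀ x y : Fin (4 * n), (x.1 % 4 = 1 ∨ x.1 % 4 = 3) → (y.1 % 4 = 1 ∨ y.1 % 4 = 3) →
      k1 n x < k1 n y → k2 n N y < k2 n N x := by
    intro x y hx hy h
    have hx' := x.2
    have hy' := y.2
    rcases c1 n x with h1 | h1 | h1 | h1 <;> rcases c1 n y with h2 | h2 | h2 | h2 <;>
      rcases c2 n N x with h3 | h3 | h3 | h3 | h3 | h3 <;>
      rcases c2 n N y with h4 | h4 | h4 | h4 | h4 | h4 <;> omega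
  have e : ∀ x : Fin (4 * n), (x.1 % 4 = 0 ∨ x.1 % 4 = 2) ∨ (x.1 % 4 = 1 ∨ x.1 % 4 = 3) := by
    intro x; omega
  rcases e a with ha | ha <;> rcases e b with hb | hb <;> rcases e c with hc | hc <;>
    rcases e d with hd | hd
  · have := I a b ha hb h1; omega
  · have := I a b ha hb h1; omega
  · have := I a b ha hb h1; omega
  · have := I a b ha hb h1; omega
  · have := I c d hc hd h3; omega
  · have := D b d hb hd (by omega); omega
  · have := D b c hb hc (by omega); omega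
  · have := D b c hb hc (by omega); omega
  · have := I c d hc hd h3; omega
  · have := D a d ha hd (by omega); omega
  · have := D a c ha hc (by omega); omega
  · have := D a c ha hc (by omega); omega
  · have := I c d hc hd h3; omega
  · have := D a d ha hd (by omega); omega
  · have := D a c ha hc (by omega); omega
  · have := D a c ha hc (by omega); omega

end Pool.Agent.Helper29.SK
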