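import Pool.Agent.Helper29.SK.Complete
import Pool.Agent.Helper80.NF.Form

/-!
Skew-merged pairs of linear orders coding tilings: the sentence.
-/

set_option autoImplicit false

namespace Pool.Agent.Helper29.SK

open Pool.Agent.Helper29.Prefix Pool.Agent.Helper29.C2 Pool.Agent.Helper74.W2O
  Pool.Agent.Helper80.NF

variable {q : ℕ}

/-- Colours: part, letter, `A`, `Z`, last elements of the sides. -/
abbrev Cl (q : ℕ) : Type := Fin 4 × Lt (Fin q) × Bool × Bool × (Fin 4 → Bool)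

/-- The order of side `i` in terms of the facts. -/
def ordF (i : Fin 4) (f : Fct Bool (Fin 4)) : Prop :=
  if i = 0 then f.o true else if i = 1 then f.o' false else if i = 2 then f.o' true else f.o false

/-- Conditions on pairs. -/
def uF (W : Wang (Fin q)) (c c' : Cl q) (f : Fct Bool (Fin 4)) : Prop :=
  (c.1 = c'.1 → (c.1 = 0 ∨ c.1 = 2) → (f.o true ↔ f.o false)) ∧
  (c.1 = c'.1 → (c.1 = 1 ∨ c.1 = 3) → (f.o true ↔ f.o' false)) ∧
  (∀ i, f.b i → (c.1 = i ∨ c.1 = i + 1) ∧ (c'.1 = i ∨ c'.1 = i + 1) ∧ ordF i f) ∧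
  (∀ i, i ≠ 3 → f.b i → (c.1 = i ↔ ¬ c'.1 = i)) ∧
  (∀ i, i ≠ 3 → f.b i → c.1 = i → c.2.1 = c'.2.1) ∧
  (f.b 0 → c.1 ≠ 0 → hOK W c.2.1 c'.2.1) ∧
  (f.b 3 → c.2.2.1 = true → c.2.1.2.2.1 = false → c'.2.2.1 = true) ∧
  (f.b 3 → c.2.2.1 = true → c.2.1.2.2.1 = true → ¬ c'.2.2.1 = true ∧
    (c'.1 = 0 ∨ c'.2.2.2.1 = true)) ∧
  (f.b 3 → c.1 = 0 → ¬ c.2.2.1 = true → c'.1 ≠ 0 ∧ ¬ c'.2.2.2.1 = true ∧
    vOK W c'.2.1 c.2.1) ∧
  (f.b 3 → c.1 ≠ 0 → ¬ c.2.2.2.1 = true → ¬ c'.2.2.1 = true ∧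
    (c'.1 = 0 ∨ c'.2.2.2.1 = true)) ∧
  (f.b 3 → c.2.2.2.1 = true → c'.2.2.2.1 = true) ∧
  (c.2.2.1 = true → c.1 = 0) ∧ (c.2.2.2.1 = true → c.1 = 3) ∧ uOK W c.2.1 ∧
  (c.2.2.1 = true → W.b c.2.1.1) ∧ (c.2.2.2.1 = true → W.t c.2.1.1)

/-- Conditions on first elements. -/
def fF (W : Wang (Fin q)) (i : Fin 4) (c : Cl q) : Prop :=
  (i ≠ 3 → c.1 = i) ∧ (i = 0 → c.2.1.2.1 = true ∧ c.2.1.2.2.2 = 1 ∧ W.c c.2.1.1) ∧
  (i = 3 → c.2.2.1 = true)

/-- Conditions on last elements. -/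
def eF (i : Fin 4) (c : Cl q) : Prop :=
  (i ≠ 3 → c.1 ≠ i) ∧ (i = 0 → c.2.1.2.2.1 = true ∧ c.2.1.2.2.2 = 1) ∧
  (i = 3 → c.2.2.2.1 = true) ∧ c.2.2.2.2 i = true

/-- Conditions on the numbers of witnesses. -/
def tF (W : Wang (Fin q)) : (Fin 4 ⊕ Fin 4) ⊕ Fin 4 → Cl q → ℕ → Prop
  | Sum.inl (Sum.inl i), c, n => n ≤ 1 ∧ (n = 0 → (c.1 = i ∨ c.1 = i + 1) → fF W i c)
  | Sum.inl (Sum.inr i), c, n => n = 0 → (c.1 = i ∨ c.1 = i + 1) → eF i c
  | Sum.inr _, _, n => n ≤ 1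

/-- Witnesses. -/
def wF : (Fin 4 ⊕ Fin 4) ⊕ Fin 4 → Cl q → Cl q → Fct Bool (Fin 4) → Prop
  | Sum.inl (Sum.inl i), _, _, f => f.b' i
  | Sum.inl (Sum.inr i), _, _, f => f.b i
  | Sum.inr i, _, c', _ => c'.2.2.2.2 i = true ∧ (c'.1 = i ∨ c'.1 = i + 1)

theorem min_le_one {A : Type} [Finite A] (P : A → Prop) :
    min 2 (Nat.card {y : A // P y}) ≤ 1 ↔ ∀ x y, P x → P y → x = y := by
  have h1 : min 2 (Nat.card {y : A // P y}) ≤ 1 ↔ Nat.card {y : A // P y} ≤ 1 := by omega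
  rw [h1, Finite.card_le_one_iff_subsingleton]
  constructor
  · intro h x y hx hy
    exact congrArg Subtype.val (h.elim ⟨x, hx⟩ ⟨y, hy⟩)
  · intro h
    exact ⟨fun x y => Subtype.ext (h _ _ x.2 y.2)⟩

theorem min_eq_zero' {A : Type} [Finite A] (P : A → Prop) :
    min 2 (Nat.card {y : A // P y}) = 0 ↔ ∀ y, ¬ P y := by
  have h1 : min 2 (Nat.card {y : A // P y}) = 0 ↔ Nat.card {y : A // P y} = 0 := by omega
  rw [h1, Finite.card_eq_zero_iff]
  constructor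
  · intro h y hy
    exact h.elim ⟨y, hy⟩
  · intro h
    exact ⟨fun y => h y.1 y.2⟩

theorem ordF_fact {U A : Type} (M : Str Bool U (Fin 4) A) (i : Fin 4) (x y : A) :
    ordF i (fact M x y) ↔ ord4 (M.ord true) (M.ord false) i x y := Iff.rfl

/-- The conditions on pairs, in terms of the axioms. -/
theorem sAx_iff (W : Wang (Fin q)) {A U : Type} [Finite A] (M : Str Bool U (Fin 4) A)
    (c : A → Cl q) :
    ((∀ x y, uF W (c x) (c y) (fact M x y)) ∧
      ∀ i x, tF W i (c x) (min 2 (Nat.card {y : A // wF i (c x) (c y) (fact M x y)}))) ↔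
    (SAx W (M.ord true) (M.ord false) M.bin (fun x => (c x).1) (fun x => (c x).2.1)
      (fun x => (c x).2.2.1 = true) (fun x => (c x).2.2.2.1 = true) ∧
      (∀ i x, side (fun x => (c x).1) i x → (∀ y, ¬ M.bin i x y) → (c x).2.2.2.2 i = true) ∧
      (∀ i x y, side (fun x => (c x).1) i x → side (fun x => (c x).1) i y →
        (c x).2.2.2.2 i = true → (c y).2.2.2.2 i = true → x = y)) := by
  constructor
  · rintro ⟨hu, hT⟩
    have g1 : ∀ i x, (∀ y z, M.bin i y x → M.bin i z x → y = z) ∧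
        ((∀ y, ¬ M.bin i y x) → side (fun x => (c x).1) i x → fF W i (c x)) := by
      intro i x
      have h := hT (Sum.inl (Sum.inl i)) x
      refine ⟨(min_le_one (fun y => M.bin i y x)).1 h.1, fun h1 h2 => h.2 ?_ h2⟩
      exact (min_eq_zero' (fun y => M.bin i y x)).2 h1
    have g2 : ∀ i x, (∀ y, ¬ M.bin i x y) → side (fun x => (c x).1) i x → eF i (c x) := by
      intro i x h1 h2
      exact hT (Sum.inl (Sum.inr i)) x ((min_eq_zero' (fun y => M.bin i x y)).2 h1) h2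
    have g3 : ∀ i (x y z : A), ((c y).2.2.2.2 i = true ∧ side (fun x => (c x).1) i y) →
        ((c z).2.2.2.2 i = true ∧ side (fun x => (c x).1) i z) → y = z := by
      intro i x
      exact (min_le_one (fun y => (c y).2.2.2.2 i = true ∧ side (fun x => (c x).1) i y)).1
        (hT (Sum.inr i) x)
    refine ⟨?_, fun i x h1 h2 => (g2 i x h2 h1).2.2.2, fun i x y h1 h2 h3 h4 =>
      g3 i x x y ⟨h3, h1⟩ ⟨h4, h2⟩⟩
    exact
    { agI := fun x y => (hu x y).1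
      agD := fun x y => (hu x y).2.1
      sd := fun i x y h => (hu x y).2.2.1 i h
      si := fun i x x' y h h' => (g1 i y).1 x x' h h'
      se := fun i x x' h h' h1 h1' => g3 i x x x' ⟨(g2 i x h1 h).2.2.2, h⟩
        ⟨(g2 i x' h1' h').2.2.2, h'⟩
      f := fun i x hi h h1 => ((g1 i x).2 h1 h).1 hi
      e := fun i x hi h h1 => (g2 i x h1 h).1 hi
      a := fun i x y hi h => (hu x y).2.2.2.1 i hi h
      l := fun i x y hi h => (hu x y).2.2.2.2.1 i hi h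
      f2 := fun x h h1 => ((g1 0 x).2 h1 h).2.1 rfl
      e2 := fun x h h1 => (g2 0 x h1 h).2.1 rfl
      h2 := fun x y => (hu x y).2.2.2.2.2.1
      f1 := fun x h h1 => ((g1 3 x).2 h1 h).2.2 rfl
      e1 := fun x h h1 => (g2 3 x h1 h).2.2.1 rfl
      aa := fun x y => (hu x y).2.2.2.2.2.2.1
      ab := fun x y => (hu x y).2.2.2.2.2.2.2.1
      tt := fun x y => (hu x y).2.2.2.2.2.2.2.2.1
      bb := fun x y => (hu x y).2.2.2.2.2.2.2.2.2.1
      zz := fun x y => (hu x y).2.2.2.2.2.2.2.2.2.2.1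
      tA := fun x => (hu x x).2.2.2.2.2.2.2.2.2.2.2.1
      tZ := fun x => (hu x x).2.2.2.2.2.2.2.2.2.2.2.2.1
      u := fun x => (hu x x).2.2.2.2.2.2.2.2.2.2.2.2.2.1
      b := fun x => (hu x x).2.2.2.2.2.2.2.2.2.2.2.2.2.2.1
      t := fun x => (hu x x).2.2.2.2.2.2.2.2.2.2.2.2.2.2.2 }
  · rintro ⟨H, h1, h2⟩
    refine ⟨fun x y => ⟨H.agI x y, H.agD x y, fun i hi => H.sd i x y hi, fun i hi => H.a i x y hi,
      fun i hi => H.l i x y hi, H.h2 x y, H.aa x y, H.ab x y, H.tt x y, H.bb x y, H.zz x y,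
      H.tA x, H.tZ x, H.u x, H.b x, H.t x⟩, ?_⟩
    rintro ((i | i) | i) x
    · refine ⟨(min_le_one (fun y => M.bin i y x)).2 (fun y z hy hz => H.si i y z x hy hz),
        fun h3 h4 => ?_⟩
      have h5 := (min_eq_zero' (fun y => M.bin i y x)).1 h3
      refine ⟨fun hi => H.f i x hi h4 h5, ?_, ?_⟩
      · rintro rfl; exact H.f2 x h4 h5
      · rintro rfl; exact H.f1 x h4 h5
    · intro h3 h4
      have h5 := (min_eq_zero' (fun y => M.bin i x y)).1 h3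
      refine ⟨fun hi => H.e i x hi h4 h5, ?_, ?_, h1 i x h4 h5⟩
      · rintro rfl; exact H.e2 x h4 h5
      · rintro rfl; exact H.e1 x h4 h5
    · exact (min_le_one (fun y => (c y).2.2.2.2 i = true ∧ side (fun x => (c x).1) i y)).2
        (fun y z hy hz => h2 i y z hy.2 hz.2 hy.1 hz.1)

/-- The model as a structure. -/
theorem sk_sentence (W : Wang (Fin q)) : ∃ Φ : Fm Bool (Cl q) (Fin 4),
    (∀ (A : Type) [Fintype A] [Nonempty A] (M : Str Bool (Cl q) (Fin 4) A), IsLin (M.ord true) →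
      IsLin (M.ord false) → (∀ e, Sat M Φ e) →
        ∃ N, 1 ≤ N ∧ Fintype.card A = 4 * (N * N) ∧ Tiles W N) ∧
    (∀ N, 1 ≤ N → Tiles W N → ∃ M : Str Bool (Cl q) (Fin 4) (Fin (4 * (N * N))),
      M.ord true = (fun x y => k1 (N * N) x.1 < k1 (N * N) y.1) ∧
      M.ord false = (fun x y => k2 (N * N) N x.1 < k2 (N * N) N y.1) ∧ ∀ e, Sat M Φ e) := by
  classical
  obtain ⟨Φ, hΦ⟩ := nf_formula 2 (uF W) (tF W) (wF (q := q))
  refine ⟨Φ, fun A _ _ M h1 h2 h => ?_, fun N hN ht => ?_⟩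
  · obtain ⟨c, _, h3, h4⟩ := (hΦ A M).1 h
    exact ((sAx_iff W M c).1 ⟨h3, h4⟩).1.tiles h1 h2
  · obtain ⟨w, hw⟩ := wd_of_tiles hN ht
    have H := sax_of_wd hw
    set n := N * N with hn
    let c : Fin (4 * n) → Cl q := fun x => (part x, w (x.1 / 4), decide (x.1 % 4 = 0 ∧ x.1 / 4 < N),
      decide (x.1 % 4 = 3 ∧ n ≤ x.1 / 4 + N),
      fun i => decide (side part i x ∧ ∀ y : Fin (4 * n), ¬ suc n N i x y))
    let M : Str Bool (Cl q) (Fin 4) (Fin (4 * n)) :=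
      { ord := fun b x y => match b with
          | true => k1 n x.1 < k1 n y.1
          | false => k2 n N x.1 < k2 n N y.1
        un := fun P x => P = c x
        bin := fun i x y => suc n N i x y }
    have e1 : M.ord true = fun x y => k1 n x.1 < k1 n y.1 := rfl
    have e2 : M.ord false = fun x y => k2 n N x.1 < k2 n N y.1 := rfl
    refine ⟨M, e1, e2, (hΦ _ M).2 ⟨c, fun x P => Iff.rfl, (sAx_iff W M c).2 ⟨?_, ?_, ?_⟩⟩⟩
    · rw [e1, e2]
      have hA : (fun x => (c x).2.2.1 = true) = fun x : Fin (4 * n) => x.1 % 4 = 0 ∧ x.1 / 4 < N := by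
        funext x
        exact propext decide_eq_true_iff
      have hZ : (fun x => (c x).2.2.2.1 = true) =
          fun x : Fin (4 * n) => x.1 % 4 = 3 ∧ n ≤ x.1 / 4 + N := by
        funext x
        exact propext decide_eq_true_iff
      rw [hA, hZ]
      exact H
    · intro i x hx h
      exact decide_eq_true ⟨hx, h⟩
    · intro i x y hx hy h h'
      have h3 := of_decide_eq_true h
      have h4 := of_decide_eq_true h'
      exact H.se i x y h3.1 h4.1 h3.2 h4.2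

end Pool.Agent.Helper29.SK
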