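import Pool.Agent.Helper29.SK.Form
import Pool.Agent.Helper74.W2O.Sen
import Pool.Agent.Helper80.NF.SpecN
import Pool.Agent.Helper29.C2.Named2

/-!
Pairs of linear orders avoiding a pattern: the wild cases.
-/

set_option autoImplicit false

namespace Pool.Agent.Helper29.SK

open Pool.Agent.Helper29.Prefix Pool.Agent.Helper29.C2 Pool.Agent.Helper74.W2O
  Pool.Agent.Helper80.NF Pool.Agent.Helper20.Spectra Pool.Agent.Helper20.PV

/-- The pair of orders of the skew-merged model. -/
def skR (N : ℕ) (b : Bool) (x y : Fin (4 * (N * N))) : Prop :=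
  match b with
  | true => k1 (N * N) x.1 < k1 (N * N) y.1
  | false => k2 (N * N) N x.1 < k2 (N * N) N y.1

section avoid

variable {n N : ℕ}

theorem incI (hn : N ≤ n) (x y : Fin (4 * n)) (hx : x.1 % 4 = 0 ∨ x.1 % 4 = 2)
    (hy : y.1 % 4 = 0 ∨ y.1 % 4 = 2) (h : k1 n x < k1 n y) : k2 n N x < k2 n N y := by
  have hx' := x.2
  have hy' := y.2
  rcases c1 n x with h1 | h1 | h1 | h1 <;> rcases c1 n y with h2 | h2 | h2 | h2 <;>
    rcases c2 n N x with h3 | h3 | h3 | h3 | h3 | h3 <;>
    rcases c2 n N y with h4 | h4 | h4 | h4 | h4 | h4 <;> omega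

theorem decD (hn : N ≤ n) (x y : Fin (4 * n)) (hx : x.1 % 4 = 1 ∨ x.1 % 4 = 3)
    (hy : y.1 % 4 = 1 ∨ y.1 % 4 = 3) (h : k1 n x < k1 n y) : k2 n N y < k2 n N x := by
  have hx' := x.2
  have hy' := y.2
  rcases c1 n x with h1 | h1 | h1 | h1 <;> rcases c1 n y with h2 | h2 | h2 | h2 <;>
    rcases c2 n N x with h3 | h3 | h3 | h3 | h3 | h3 <;>
    rcases c2 n N y with h4 | h4 | h4 | h4 | h4 | h4 <;> omega

/-- No 3412. -/
theorem av3412 (hn : N ≤ n) (a b c d : Fin (4 * n)) (h1 : k1 n a < k1 n b)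
    (h2 : k1 n b < k1 n c) (h3 : k1 n c < k1 n d) (h4 : k2 n N c < k2 n N d)
    (h5 : k2 n N d < k2 n N a) (h6 : k2 n N a < k2 n N b) : False := by
  have e : ∀ x : Fin (4 * n), (x.1 % 4 = 0 ∨ x.1 % 4 = 2) ∨ (x.1 % 4 = 1 ∨ x.1 % 4 = 3) := by
    intro x; omega
  have I := incI (N := N) hn
  have D := decD (N := N) hn
  rcases e a with ha | ha <;> rcases e b with hb | hb <;> rcases e c with hc | hc <;>
    rcases e d with hd | hd
  · have := I a c ha hc (by omega); omega
  · have := I a c ha hc (by omega); omega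
  · have := I a d ha hd (by omega); omega
  · have := D c d hc hd h3; omega
  · have := I a c ha hc (by omega); omega
  · have := I a c ha hc (by omega); omega
  · have := I a d ha hd (by omega); omega
  · have := D c d hc hd h3; omega
  · have := I b c hb hc (by omega); omega
  · have := I b c hb hc (by omega); omega
  · have := I b d hb hd (by omega); omega
  · have := D c d hc hd h3; omega
  · have := D a b ha hb h1; omega
  · have := D a b ha hb h1; omega
  · have := D a b ha hb h1; omega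
  · have := D a b ha hb h1; omega

/-- No 2413. -/
theorem av2413 (hN : 1 ≤ N) (hn : N ≤ n) (a b c d : Fin (4 * n)) (h1 : k1 n a < k1 n b)
    (h2 : k1 n b < k1 n c) (h3 : k1 n c < k1 n d) (h4 : k2 n N c < k2 n N a)
    (h5 : k2 n N a < k2 n N d) (h6 : k2 n N d < k2 n N b) : False := by
  have e : ∀ x : Fin (4 * n), (x.1 % 4 = 0 ∨ x.1 % 4 = 2) ∨ (x.1 % 4 = 1 ∨ x.1 % 4 = 3) := by
    intro x; omega
  have I := incI (N := N) hn
  have D := decD (N := N) hn
  have ha : a.1 % 4 = 0 ∨ a.1 % 4 = 2 := by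
    rcases e a with ha | ha
    · exact ha
    · rcases e b with hb | hb
      · rcases e d with hd | hd
        · have := I b d hb hd (by omega); omega
        · have := D a d ha hd (by omega); omega
      · have := D a b ha hb (by omega); omega
  have hc : c.1 % 4 = 1 ∨ c.1 % 4 = 3 := by
    rcases e c with hc | hc
    · have := I a c ha hc (by omega); omega
    · exact hc
  have hd : d.1 % 4 = 0 ∨ d.1 % 4 = 2 := by
    rcases e d with hd | hd
    · exact hd
    · have := D c d hc hd (by omega); omega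
  have hb : b.1 % 4 = 1 ∨ b.1 % 4 = 3 := by
    rcases e b with hb | hb
    · have := I b d hb hd (by omega); omega
    · exact hb
  have ha' := a.2
  have hb' := b.2
  have hc' := c.2
  have hd' := d.2
  -- the quadrants
  have qb : b.1 % 4 = 1 := by
    rcases hb with hb | hb
    · exact hb
    · rcases c1 n b with h7 | h7 | h7 | h7 <;> rcases c2 n N b with h8 | h8 | h8 | h8 | h8 | h8 <;>
        rcases c1 n d with h9 | h9 | h9 | h9 <;>
        rcases c2 n N d with h10 | h10 | h10 | h10 | h10 | h10 <;> omega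
  have qa : a.1 % 4 = 0 := by
    rcases ha with ha | ha
    · exact ha
    · rcases c1 n b with h7 | h7 | h7 | h7 <;> rcases c1 n a with h9 | h9 | h9 | h9 <;> omega
  have qc : c.1 % 4 = 3 := by
    rcases hc with hc | hc
    · rcases c2 n N a with h8 | h8 | h8 | h8 | h8 | h8 <;>
        rcases c2 n N c with h10 | h10 | h10 | h10 | h10 | h10 <;> omega
    · exact hc
  have qd : d.1 % 4 = 2 := by
    rcases hd with hd | hd
    · rcases c1 n c with h7 | h7 | h7 | h7 <;> rcases c1 n d with h9 | h9 | h9 | h9 <;> omega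
    · exact hd
  have m1 : k1 n a = 2 * (a.1 / 4) := by
    rcases c1 n a with h7 | h7 | h7 | h7 <;> omega
  have m2 : k1 n b = 2 * (b.1 / 4) + 1 := by
    rcases c1 n b with h7 | h7 | h7 | h7 <;> omega
  have m3 : k1 n c = 4 * n - 2 - 2 * (c.1 / 4) := by
    rcases c1 n c with h7 | h7 | h7 | h7 <;> omega
  have m4 : k1 n d = 4 * n - 1 - 2 * (d.1 / 4) := by
    rcases c1 n d with h7 | h7 | h7 | h7 <;> omega
  have m5 : k2 n N b = 4 * n - 1 - 2 * (b.1 / 4) := by
    rcases c2 n N b with h8 | h8 | h8 | h8 | h8 | h8 <;> omega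
  have m6 : k2 n N d = 4 * n - 2 - 2 * (d.1 / 4) := by
    rcases c2 n N d with h8 | h8 | h8 | h8 | h8 | h8 <;> omega
  rcases c2 n N a with h8 | h8 | h8 | h8 | h8 | h8 <;>
    rcases c2 n N c with h10 | h10 | h10 | h10 | h10 | h10 <;> omega

end avoid

theorem skR_lin {N : ℕ} (hN : 1 ≤ N) (b : Bool) : IsLin (skR N b) := by
  cases b
  · exact lin_k2 (Nat.le_mul_of_pos_right N hN)
  · exact lin_k1 _

/-! ### Universality -/

/-- Universality by the skew-merged coding. -/
theorem univ_of_skew {K : ∀ A : Type, (Bool → A → A → Prop) → Prop}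
    (hK : ∀ (n : ℕ) (R : Bool → Fin n → Fin n → Prop), K (Fin n) R → ∀ b, IsLin (R b))
    (hK' : ∀ N, 1 ≤ N → K (Fin (4 * (N * N))) (skR N)) : Univ (C2Spectrum K) := by
  refine univ_of_tiles fun q W => ?_
  obtain ⟨Φ, h1, h2⟩ := sk_sentence W
  refine ⟨Polynomial.C 4 * Polynomial.X ^ 2, _,
    ⟨Cl q, Fin 4, inferInstance, inferInstance, Φ, rfl⟩, fun N hN => ?_⟩
  have hev : Polynomial.eval N (Polynomial.C 4 * Polynomial.X ^ 2 : Polynomial ℕ) =
      4 * (N * N) := by
    simp [sq]
  rw [hev]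
  have hNN : 1 ≤ N * N := Nat.mul_pos hN hN
  constructor
  · intro h
    obtain ⟨M, e1, e2, hs⟩ := h2 N hN h
    refine ⟨by omega, M, ?_, hs⟩
    have e3 : M.ord = skR N := by
      funext b
      cases b
      · exact e2
      · exact e1
    rw [e3]
    exact hK' N hN
  · rintro ⟨hn, M, hM, hs⟩
    have hlin := hK _ _ hM
    have : Nonempty (Fin (4 * (N * N))) := ⟨⟨0, hn⟩⟩
    obtain ⟨N', hN', hc, ht⟩ := h1 _ M (hlin true) (hlin false) hs
    rw [Fintype.card_fin] at hc
    have h3 : N * N = N' * N' := by omega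
    rw [Nat.mul_self_inj.1 h3]
    exact ht

/-- Universality by the coding with two increasing sequences. -/
theorem univ_of_agree {K : ∀ A : Type, (Bool → A → A → Prop) → Prop}
    (hK : ∀ (n : ℕ) (R : Bool → Fin n → Fin n → Prop), K (Fin n) R → ∀ b, IsLin (R b))
    (hK' : ∀ (n : ℕ) (R : Bool → Fin n → Fin n → Prop) (T : Fin n → Prop),
      (∀ b, IsLin (R b)) → (∀ x y, (T x ↔ T y) → (R true x y ↔ R false x y)) → K (Fin n) R) :
    Univ (C2Spectrum K) := by
  refine univ_of_tiles fun q W => ?_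
  obtain ⟨Φ, hΦ⟩ := cdef_gd W
  refine ⟨Polynomial.C 2 * Polynomial.X ^ 2, _,
    ⟨_, _, inferInstance, inferInstance, Φ, rfl⟩, fun N hN => ?_⟩
  have hev : Polynomial.eval N (Polynomial.C 2 * Polynomial.X ^ 2 : Polynomial ℕ) =
      2 * (N * N) := by
    simp [sq]
  rw [hev]
  have hNN : 1 ≤ N * N := Nat.mul_pos hN hN
  constructor
  · intro h
    obtain ⟨w, hw⟩ := wd_of_tiles hN h
    obtain ⟨l1, l2, s1, s2, lab, T, A, Z, hl1, hl2, H⟩ := ax_of_wd hw
    let M : Str Bool (Lt (Fin q) ⊕ Fin 3) Bool (Fin (2 * (N * N))) :=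
      ⟨fun l => if l = true then l1 else l2, fun u x => Sum.elim
      (fun ℓ => lab x = ℓ) (fun i => if i = 0 then T x else if i = 1 then A x else Z x) u,
      fun E => if E = true then s1 else s2⟩
    refine ⟨by omega, M, hK' _ _ T (fun b => ?_) H.ag, fun e => ?_⟩
    · cases b
      · exact ⟨hl2.irr, hl2.tr, hl2.tot⟩
      · exact ⟨hl1.irr, hl1.tr, hl1.tot⟩
    · rw [hΦ]
      exact (gd_iff W M).2 ⟨lab, fun ℓ x => Iff.rfl, H⟩ e
  · rintro ⟨hn, M, hM, hs⟩
    have hlin := hK _ _ hM
    have : Nonempty (Fin (2 * (N * N))) := ⟨⟨0, hn⟩⟩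
    have h2 : ∀ e, Gd W (Fin (2 * (N * N))) M e := fun e => by
      rw [← hΦ]
      exact hs e
    obtain ⟨lab, _, H⟩ := (gd_iff W _).1 h2
    obtain ⟨n', N', w, hn', hw⟩ := wd_of_ax ⟨(hlin true).irr, (hlin true).trans, (hlin true).total⟩
      ⟨(hlin false).irr, (hlin false).trans, (hlin false).total⟩ H
    obtain ⟨h3, h4⟩ := hw.tiles
    rw [Fintype.card_fin] at hn'
    have h5 : N * N = N' * N' := by omega
    rw [Nat.mul_self_inj.1 h5]
    exact h4

/-- The second order reversed. -/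
def rv {A : Type} (R : Bool → A → A → Prop) (b : Bool) (x y : A) : Prop :=
  if b = true then R true x y else R false y x

theorem rv_rv {A : Type} (R : Bool → A → A → Prop) : rv (rv R) = R := by
  funext b x y
  cases b
  · rfl
  · rfl

theorem rv_lin {A : Type} {R : Bool → A → A → Prop} (h : ∀ b, IsLin (R b)) (b : Bool) :
    IsLin (rv R b) := by
  cases b
  · exact ⟨(h false).irr, fun x y z h1 h2 => (h false).trans _ _ _ h2 h1,
      fun x y h1 => ((h false).total x y h1).symm⟩
  · exact h true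

theorem c2_rev {K : ∀ A : Type, (Bool → A → A → Prop) → Prop} {S : Set ℕ}
    (h : C2Spectrum (fun A R => K A (rv R)) S) : C2Spectrum K S := by
  obtain ⟨U, V, hU, hV, Φ, rfl⟩ := h
  obtain ⟨Φ', hΦ'⟩ := exists_trFm (Λ := Bool) (W := Empty) (Λ' := Bool) (U := U) (V := V)
    (fun l _ _ f g _ => if l = true then f true else g false) Φ
  refine ⟨Empty ⊕ U, V, inferInstance, hV, Φ', Set.ext fun n => and_congr_right fun _ => ?_⟩
  have hint : ∀ (R : Bool → Fin n → Fin n → Prop) (w : Empty → Fin n → Prop),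
      interp (fun (l : Bool) _ _ f g _ => if l = true then f true else g false) R w = rv R :=
    fun R w => rfl
  constructor
  · rintro ⟨M, h1, h2⟩
    refine ⟨⟨rv M.ord, Sum.elim (fun P => P.elim) M.un, M.bin⟩, h1, fun e => ?_⟩
    rw [hΦ', hint, rv_rv]
    exact h2 e
  · rintro ⟨M, h1, h2⟩
    refine ⟨⟨rv M.ord, fun P => M.un (Sum.inr P), M.bin⟩, ?_, fun e => ?_⟩
    · show K (Fin n) (rv (rv M.ord))
      rw [rv_rv]
      exact h1
    · have h3 := h2 e
      have hM : M = ⟨M.ord, Sum.elim (fun P => M.un (Sum.inl P)) (fun P => M.un (Sum.inr P)),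
          M.bin⟩ := by
        rcases M with ⟨o, u, b⟩
        congr
        funext P
        rcases P with P | P <;> rfl
      rw [hM, hΦ', hint] at h3
      exact h3

theorem univ_rev {K : ∀ A : Type, (Bool → A → A → Prop) → Prop}
    (h : Univ (C2Spectrum (fun A R => K A (rv R)))) : Univ (C2Spectrum K) :=
  univ_mono (fun _ hS => c2_rev hS) h

end Pool.Agent.Helper29.SK
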