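import Pool.Agent.Helper74.W2O.Mod
import Pool.Agent.Helper29.C2.Pos

/-!
Skew-merged pairs of linear orders coding tilings: soundness.
-/

set_option autoImplicit false

namespace Pool.Agent.Helper29.SK

open Pool.Agent.Helper29.Prefix Pool.Agent.Helper29.C2 Pool.Agent.Helper74.W2O

variable {Γ : Type}

/-- In a finite linear order with a successor relation and alternating predicate, the successor is an
order isomorphism between the two parts. -/
theorem ladder {A : Type} [Finite A] {R S : A → A → Prop} (hR : IsLin R) (hS : SuccAx R S)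
    {P : A → Prop} (hf : ∀ x, (∀ y, ¬ S y x) → P x) (he : ∀ x, (∀ y, ¬ S x y) → ¬ P x)
    (ha : ∀ x y, S x y → (P x ↔ ¬ P y)) :
    ∃ g : A → A, (∀ x, P x → ¬ P (g x) ∧ S x (g x)) ∧
      (∀ x y, P x → P y → (R x y ↔ R (g x) (g y))) ∧ (∀ z, ¬ P z → ∃ x, P x ∧ g x = z) := by
  classical
  obtain ⟨pos, hp⟩ := exists_pos hR
  have hS' := fun x y => hS.iff hp x y
  have hex : ∀ x, ∃ y, P x → S x y := by
    intro x
    by_cases hx : ∃ y, S x y
    · obtain ⟨y, hy⟩ := hx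
      exact ⟨y, fun _ => hy⟩
    · exact ⟨x, fun hP => absurd hP (he x (fun y hy => hx ⟨y, hy⟩))⟩
  choose g hg using hex
  refine ⟨g, fun x hx => ⟨(ha x _ (hg x hx)).1 hx, hg x hx⟩, fun x y hx hy => ?_, fun z hz => ?_⟩
  · have h1 := (hS' _ _).1 (hg x hx)
    have h2 := (hS' _ _).1 (hg y hy)
    rw [hp.lt_iff, hp.lt_iff, h1, h2]
    omega
  · have h1 : ∃ x, S x z := by
      by_contra hcon
      exact hz (hf z (fun y hy => hcon ⟨y, hy⟩))
    obtain ⟨x, hx⟩ := h1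
    have hPx : P x := (ha x z hx).2 hz
    refine ⟨x, hPx, hp.inj ?_⟩
    rw [(hS' _ _).1 (hg x hPx), (hS' _ _).1 hx]

/-- `x` is on side `i`. -/
def side {M : Type} (p : M → Fin 4) (i : Fin 4) (x : M) : Prop := p x = i ∨ p x = i + 1

/-- The order of side `i`, from the outside to the centre. -/
def ord4 {M : Type} (R1 R2 : M → M → Prop) (i : Fin 4) (x y : M) : Prop :=
  if i = 0 then R1 x y else if i = 1 then R2 y x else if i = 2 then R1 y x else R2 x y

theorem ord4_lin {M : Type} {R1 R2 : M → M → Prop} (h1 : IsLin R1) (h2 : IsLin R2) (i : Fin 4) :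
    IsLin (ord4 R1 R2 i) := by
  have h1' : IsLin (fun x y => R1 y x) := ⟨h1.irr, fun x y z h h' => h1.trans _ _ _ h' h,
    fun x y h => (h1.total x y h).symm⟩
  have h2' : IsLin (fun x y => R2 y x) := ⟨h2.irr, fun x y z h h' => h2.trans _ _ _ h' h,
    fun x y h => (h2.total x y h).symm⟩
  fin_cases i
  · exact h1
  · exact h2'
  · exact h1'
  · exact h2

/-- The axioms. The parts `p x = 0, 1, 2, 3`: lower left, upper left, upper right, lower right. -/
structure SAx (W : Wang Γ) {M : Type} (R1 R2 : M → M → Prop) (S : Fin 4 → M → M → Prop)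
    (p : M → Fin 4) (lab : M → Lt Γ) (A Z : M → Prop) : Prop where
  agI : ∀ x y, p x = p y → (p x = 0 ∨ p x = 2) → (R1 x y ↔ R2 x y)
  agD : ∀ x y, p x = p y → (p x = 1 ∨ p x = 3) → (R1 x y ↔ R2 y x)
  sd : ∀ i x y, S i x y → side p i x ∧ side p i y ∧ ord4 R1 R2 i x y
  si : ∀ i x x' y, S i x y → S i x' y → x = x'
  se : ∀ i x x', side p i x → side p i x' → (∀ y, ¬ S i x y) → (∀ y, ¬ S i x' y) → x = x'
  f : ∀ i x, i ≠ 3 → side p i x → (∀ y, ¬ S i y x) → p x = i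
  e : ∀ i x, i ≠ 3 → side p i x → (∀ y, ¬ S i x y) → p x ≠ i
  a : ∀ i x y, i ≠ 3 → S i x y → (p x = i ↔ ¬ p y = i)
  l : ∀ i x y, i ≠ 3 → S i x y → p x = i → lab x = lab y
  f2 : ∀ x, side p 0 x → (∀ y, ¬ S 0 y x) → (lab x).2.1 = true ∧ (lab x).2.2.2 = 1 ∧ W.c (lab x).1
  e2 : ∀ x, side p 0 x → (∀ y, ¬ S 0 x y) → (lab x).2.2.1 = true ∧ (lab x).2.2.2 = 1
  h2 : ∀ x y, S 0 x y → p x ≠ 0 → hOK W (lab x) (lab y)
  f1 : ∀ x, side p 3 x → (∀ y, ¬ S 3 y x) → A x
  e1 : ∀ x, side p 3 x → (∀ y, ¬ S 3 x y) → Z x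
  tA : ∀ x, A x → p x = 0
  tZ : ∀ x, Z x → p x = 3
  aa : ∀ x y, S 3 x y → A x → (lab x).2.2.1 = false → A y
  ab : ∀ x y, S 3 x y → A x → (lab x).2.2.1 = true → ¬ A y ∧ (p y = 0 ∨ Z y)
  tt : ∀ x y, S 3 x y → p x = 0 → ¬ A x → p y ≠ 0 ∧ ¬ Z y ∧ vOK W (lab y) (lab x)
  bb : ∀ x y, S 3 x y → p x ≠ 0 → ¬ Z x → ¬ A y ∧ (p y = 0 ∨ Z y)
  zz : ∀ x y, S 3 x y → Z x → Z y
  u : ∀ x, uOK W (lab x)
  b : ∀ x, A x → W.b (lab x).1
  t : ∀ x, Z x → W.t (lab x).1

/-- The order isomorphism of side `i`. -/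
theorem SAx.ladder {W : Wang Γ} {M : Type} [Finite M] {R1 R2 : M → M → Prop}
    {S : Fin 4 → M → M → Prop} {p : M → Fin 4} {lab : M → Lt Γ} {A Z : M → Prop}
    (h1 : IsLin R1) (h2 : IsLin R2) (H : SAx W R1 R2 S p lab A Z) (i : Fin 4) (hi : i ≠ 3) :
    ∃ g : M → M, (∀ x, p x = i → p (g x) = i + 1 ∧ S i x (g x)) ∧
      (∀ x y, p x = i → p y = i → (ord4 R1 R2 i x y ↔ ord4 R1 R2 i (g x) (g y))) ∧
      (∀ z, p z = i + 1 → ∃ x, p x = i ∧ g x = z) := by
  classical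
  have hlin := ord4_lin h1 h2 i
  let B := {x : M // side p i x}
  have hne : i + 1 ≠ i := by fin_cases i <;> simp
  obtain ⟨g, hg1, hg2, hg3⟩ := SK.ladder (A := B) (R := fun x y => ord4 R1 R2 i x.1 y.1)
    (S := fun x y => S i x.1 y.1) (P := fun x => p x.1 = i)
    ⟨fun x => hlin.irr _, fun x y z => hlin.trans _ _ _, fun x y h => hlin.total _ _
      (fun e => h (Subtype.ext e))⟩
    ⟨fun x y h => (H.sd i _ _ h).2.2, fun z x y h h' => Subtype.ext (H.si i _ _ _ h h'),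
      fun x y h h' => Subtype.ext (H.se i _ _ x.2 y.2
        (fun z hz => h ⟨⟨z, (H.sd i _ _ hz).2.1⟩, hz⟩)
        (fun z hz => h' ⟨⟨z, (H.sd i _ _ hz).2.1⟩, hz⟩))⟩
    (fun x h => H.f i _ hi x.2 (fun y hy => h ⟨y, (H.sd i _ _ hy).1⟩ hy))
    (fun x h => H.e i _ hi x.2 (fun y hy => h ⟨y, (H.sd i _ _ hy).2.1⟩ hy))
    (fun x y h => H.a i _ _ hi h)
  refine ⟨fun x => if hx : side p i x then (g ⟨x, hx⟩).1 else x, fun x hx => ?_,
    fun x y hx hy => ?_, fun z hz => ?_⟩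
  · have hs : side p i x := Or.inl hx
    beta_reduce
    rw [dif_pos hs]
    obtain ⟨h3, h4⟩ := hg1 ⟨x, hs⟩ hx
    exact ⟨(g ⟨x, hs⟩).2.resolve_left h3, h4⟩
  · have hs : side p i x := Or.inl hx
    have hs' : side p i y := Or.inl hy
    beta_reduce
    rw [dif_pos hs, dif_pos hs']
    exact hg2 ⟨x, hs⟩ ⟨y, hs'⟩ hx hy
  · obtain ⟨x, hx, hx'⟩ := hg3 ⟨z, Or.inr hz⟩ (fun h => hne (hz.symm.trans h))
    refine ⟨x.1, hx, ?_⟩
    beta_reduce
    rw [dif_pos x.2]
    exact congrArg Subtype.val hx'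

/-- **Soundness.** -/
theorem SAx.tiles {W : Wang Γ} {M : Type} [Fintype M] [Nonempty M] {R1 R2 : M → M → Prop}
    {S : Fin 4 → M → M → Prop} {p : M → Fin 4} {lab : M → Lt Γ} {A Z : M → Prop}
    (h1 : IsLin R1) (h2 : IsLin R2) (H : SAx W R1 R2 S p lab A Z) :
    ∃ N, 1 ≤ N ∧ Fintype.card M = 4 * (N * N) ∧ Tiles W N := by
  classical
  obtain ⟨g0, a1, a2, a3⟩ := H.ladder h1 h2 0 (by decide)
  obtain ⟨g1, b1, b2, b3⟩ := H.ladder h1 h2 1 (by decide)
  obtain ⟨g2, c1, c2, c3⟩ := H.ladder h1 h2 2 (by decide)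
  have inj : ∀ (i : Fin 4) (g : M → M), (∀ x y, p x = i → p y = i →
      (ord4 R1 R2 i x y ↔ ord4 R1 R2 i (g x) (g y))) → ∀ x y, p x = i → p y = i → g x = g y →
      x = y := by
    intro i g hg x y hx hy e
    by_contra hne
    have hlin := ord4_lin h1 h2 i
    rcases hlin.total x y hne with h | h
    · have := (hg x y hx hy).1 h
      rw [e] at this
      exact hlin.irr _ this
    · have := (hg y x hy hx).1 h
      rw [e] at this
      exact hlin.irr _ this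
  -- cardinalities
  have hcard : ∀ (i : Fin 4) (g : M → M), (∀ x, p x = i → p (g x) = i + 1 ∧ S i x (g x)) →
      (∀ x y, p x = i → p y = i → (ord4 R1 R2 i x y ↔ ord4 R1 R2 i (g x) (g y))) →
      (∀ z, p z = i + 1 → ∃ x, p x = i ∧ g x = z) →
      Fintype.card {x // p x = i} = Fintype.card {x // p x = i + 1} := by
    intro i g hg1 hg2 hg3
    refine Fintype.card_congr (Equiv.ofBijective
      (fun x : {x // p x = i} => (⟨g x.1, (hg1 x.1 x.2).1⟩ : {x // p x = i + 1})) ⟨?_, ?_⟩)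
    · intro x y hxy
      exact Subtype.ext (inj i g hg2 x.1 y.1 x.2 y.2 (congrArg Subtype.val hxy))
    · rintro ⟨z, hz⟩
      obtain ⟨x, hx, hx'⟩ := hg3 z hz
      exact ⟨⟨x, hx⟩, Subtype.ext hx'⟩
  have k0 := hcard 0 g0 a1 a2 a3
  have k1 := hcard 1 g1 b1 b2 b3
  have k2 := hcard 2 g2 c1 c2 c3
  have e01 : (0 : Fin 4) + 1 = 1 := rfl
  have e12 : (1 : Fin 4) + 1 = 2 := rfl
  have e23 : (2 : Fin 4) + 1 = 3 := rfl
  have e30 : (3 : Fin 4) + 1 = 0 := rfl
  rw [e01] at a1 a3 k0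
  rw [e12] at b1 b3 k1
  rw [e23] at c1 c3 k2
  have hfib : Fintype.card M = Fintype.card {x // p x = 0} + Fintype.card {x // p x = 1} +
      Fintype.card {x // p x = 2} + Fintype.card {x // p x = 3} := by
    have h3 := Fintype.card_congr (Equiv.sigmaFiberEquiv p)
    rw [Fintype.card_sigma, Fin.sum_univ_four] at h3
    exact h3.symm
  let M0 := {x : M // side p 0 x}
  have hM0 : Fintype.card M0 = Fintype.card {x // p x = 0} + Fintype.card {x // p x = 1} := by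
    have h3 : Fintype.card M0 = Fintype.card {x // p x = 0 ∨ p x = 1} :=
      Fintype.card_congr (Equiv.subtypeEquivRight (fun x => Iff.rfl))
    rw [h3]
    exact Fintype.card_subtype_or_disjoint _ _ (by
      rw [Pi.disjoint_iff]
      intro x
      rw [Prop.disjoint_iff]
      rintro ⟨h4, h5⟩
      rw [h4] at h5
      exact absurd h5 (by decide))
  -- the map to side 3
  let φ : M → M := fun x => if p x = 0 then x else g2 (g1 x)
  have φ0 : ∀ x, p x = 0 → φ x = x := fun x hx => if_pos hx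
  have φ1 : ∀ x, p x = 1 → φ x = g2 (g1 x) := fun x hx => if_neg (by rw [hx]; decide)
  have pφ0 : ∀ x, p x = 0 → p (φ x) = 0 := fun x hx => by rw [φ0 x hx]; exact hx
  have pφ1 : ∀ x, p x = 1 → p (φ x) = 3 := fun x hx => by
    rw [φ1 x hx]; exact (c1 _ (b1 x hx).1).1
  have hφs : ∀ x : M0, side p 3 (φ x.1) := by
    intro x
    rcases x.2 with hx | hx
    · exact Or.inr (pφ0 _ hx)
    · exact Or.inl (pφ1 _ hx)
  have hsurj : ∀ z, side p 3 z → ∃ x : M0, φ x.1 = z := by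
    intro z hz
    rcases hz with hz | hz
    · obtain ⟨y, hy, rfl⟩ := c3 z hz
      obtain ⟨x, hx, rfl⟩ := b3 y hy
      exact ⟨⟨x, Or.inr hx⟩, φ1 x hx⟩
    · exact ⟨⟨z, Or.inl hz⟩, φ0 z hz⟩
  have hord : ∀ x y : M0, p x.1 = 1 → p y.1 = 1 → (R2 (φ x.1) (φ y.1) ↔ R1 x.1 y.1) := by
    intro x y hx hy
    have s1 := b2 x.1 y.1 hx hy
    have s2 := c2 (g1 x.1) (g1 y.1) (b1 _ hx).1 (b1 _ hy).1
    change R2 y.1 x.1 ↔ R2 (g1 y.1) (g1 x.1) at s1
    change R1 (g1 y.1) (g1 x.1) ↔ R1 (g2 (g1 y.1)) (g2 (g1 x.1)) at s2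
    rw [φ1 _ hx, φ1 _ hy, H.agD x.1 y.1 (hx.trans hy.symm) (Or.inl hx), s1,
      ← H.agI (g1 y.1) (g1 x.1) ((b1 _ hy).1.trans (b1 _ hx).1.symm) (Or.inr (b1 _ hy).1), s2,
      H.agD _ _ ((c1 _ (b1 _ hy).1).1.trans (c1 _ (b1 _ hx).1).1.symm)
        (Or.inr (c1 _ (b1 _ hy).1).1)]
  have hinj : ∀ x y : M0, φ x.1 = φ y.1 → x = y := by
    intro x y e
    rcases x.2 with hx | hx <;> rcases y.2 with hy | hy
    · rw [φ0 _ hx, φ0 _ hy] at e; exact Subtype.ext e
    · have := pφ1 _ hy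
      rw [← e, pφ0 _ hx] at this
      exact absurd this (by decide)
    · have := pφ1 _ hx
      rw [e, pφ0 _ hy] at this
      exact absurd this (by decide)
    · rw [φ1 _ hx, φ1 _ hy] at e
      have h3 := inj 2 g2 c2 _ _ (b1 _ hx).1 (b1 _ hy).1 e
      exact Subtype.ext (inj 1 g1 b2 _ _ hx hy h3)
  have hlab : ∀ x : M0, lab (φ x.1) = lab x.1 := by
    intro x
    rcases x.2 with hx | hx
    · rw [φ0 _ hx]
    · rw [φ1 _ hx, ← H.l 2 _ _ (by decide) (c1 _ (b1 _ hx).1).2 (b1 _ hx).1,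
        ← H.l 1 _ _ (by decide) (b1 _ hx).2 hx]
  have p3 : ∀ x : M0, p (φ x.1) ≠ 0 ↔ ¬ p x.1 = 0 := by
    intro x
    rcases x.2 with hx | hx
    · rw [pφ0 _ hx]; simp [hx]
    · rw [pφ1 _ hx]
      have hx' : p x.1 = 1 := hx
      rw [hx']
      decide
  have hAx : Ax W (fun x y : M0 => R2 (φ x.1) (φ y.1)) (fun x y : M0 => R1 x.1 y.1)
      (fun x y : M0 => S 3 (φ x.1) (φ y.1)) (fun x y : M0 => S 0 x.1 y.1) (fun x => lab x.1)
      (fun x => p x.1 = 0) (fun x => A (φ x.1)) (fun x => Z (φ x.1)) :=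
    { s1l := fun x y h => (H.sd 3 _ _ h).2.2
      s1i := fun x x' y h h' => hinj _ _ (H.si 3 _ _ _ h h')
      s1e := by
        intro x x' h h'
        refine hinj _ _ (H.se 3 _ _ (hφs x) (hφs x') (fun z hz => ?_) (fun z hz => ?_))
        · obtain ⟨y, hy⟩ := hsurj z (H.sd 3 _ _ hz).2.1
          exact h y (by rw [hy]; exact hz)
        · obtain ⟨y, hy⟩ := hsurj z (H.sd 3 _ _ hz).2.1
          exact h' y (by rw [hy]; exact hz)
      s2l := fun x y h => (H.sd 0 _ _ h).2.2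
      s2i := fun x x' y h h' => Subtype.ext (H.si 0 _ _ _ h h')
      s2e := fun x x' h h' => Subtype.ext (H.se 0 _ _ x.2 x'.2
        (fun z hz => h ⟨z, (H.sd 0 _ _ hz).2.1⟩ hz)
        (fun z hz => h' ⟨z, (H.sd 0 _ _ hz).2.1⟩ hz))
      ag := by
        intro x y hT
        by_cases hx : p x.1 = 0
        · have hy := hT.1 hx
          show R2 (φ x.1) (φ y.1) ↔ R1 x.1 y.1
          rw [φ0 _ hx, φ0 _ hy]
          exact (H.agI _ _ (hx.trans hy.symm) (Or.inl hx)).symm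
        · have hy : ¬ p y.1 = 0 := fun hy => hx (hT.2 hy)
          exact hord x y (x.2.resolve_left hx) (y.2.resolve_left hy)
      f2 := by
        intro x h
        have h' : ∀ z, ¬ S 0 z x.1 := fun z hz => h ⟨z, (H.sd 0 _ _ hz).1⟩ hz
        exact ⟨H.f 0 _ (by decide) x.2 h', H.f2 _ x.2 h'⟩
      e2 := by
        intro x h
        have h' : ∀ z, ¬ S 0 x.1 z := fun z hz => h ⟨z, (H.sd 0 _ _ hz).2.1⟩ hz
        exact ⟨H.e 0 _ (by decide) x.2 h', H.e2 _ x.2 h'⟩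
      a2 := fun x y h => H.a 0 _ _ (by decide) h
      p2 := fun x y h hx => H.l 0 _ _ (by decide) h hx
      h2 := fun x y h hx => H.h2 _ _ h hx
      f1 := by
        intro x h
        refine H.f1 _ (hφs x) (fun z hz => ?_)
        obtain ⟨y, hy⟩ := hsurj z (H.sd 3 _ _ hz).1
        exact h y (by show S 3 (φ y.1) (φ x.1); rw [hy]; exact hz)
      e1 := by
        intro x h
        refine H.e1 _ (hφs x) (fun z hz => ?_)
        obtain ⟨y, hy⟩ := hsurj z (H.sd 3 _ _ hz).2.1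
        exact h y (by show S 3 (φ x.1) (φ y.1); rw [hy]; exact hz)
      tA := by
        intro x h
        by_contra hx
        exact (p3 x).2 hx (H.tA _ h)
      tZ := by
        intro x h hx
        have h3 := H.tZ _ h
        rw [pφ0 _ hx] at h3
        exact absurd h3 (by decide)
      aa := fun x y h hA hl => H.aa _ _ h hA (by rw [hlab]; exact hl)
      ab := by
        intro x y h hA hl
        obtain ⟨h3, h4⟩ := H.ab _ _ h hA (by rw [hlab]; exact hl)
        refine ⟨h3, h4.imp (fun h5 => ?_) id⟩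
        by_contra h6
        exact (p3 y).2 h6 h5
      tt := by
        intro x y h hx hA
        obtain ⟨h3, h4, h5⟩ := H.tt _ _ h (pφ0 _ hx) hA
        rw [hlab, hlab] at h5
        exact ⟨(p3 y).1 h3, h4, h5⟩
      bb := by
        intro x y h hx hZ
        obtain ⟨h3, h4⟩ := H.bb _ _ h ((p3 x).2 hx) hZ
        refine ⟨h3, h4.imp (fun h5 => ?_) id⟩
        by_contra h6
        exact (p3 y).2 h6 h5
      zz := fun x y h hZ => H.zz _ _ h hZ
      u := fun x => H.u _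
      b := fun x h => by
        have := H.b _ h
        rw [hlab] at this
        exact this
      t := fun x h => by
        have := H.t _ h
        rw [hlab] at this
        exact this }
  have hl1 : Lin (fun x y : M0 => R2 (φ x.1) (φ y.1)) :=
    ⟨fun x => h2.irr _, fun x y z => h2.trans _ _ _, fun x y h => h2.total _ _
      (fun e => h (hinj _ _ e))⟩
  have hl2 : Lin (fun x y : M0 => R1 x.1 y.1) :=
    ⟨fun x => h1.irr _, fun x y z => h1.trans _ _ _, fun x y h => h1.total _ _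
      (fun e => h (Subtype.ext e))⟩
  have hpos : 0 < Fintype.card M0 := by
    have h3 : 0 < Fintype.card M := Fintype.card_pos
    omega
  have : Nonempty M0 := Fintype.card_pos_iff.1 hpos
  obtain ⟨n, N, w, hn, hw⟩ := wd_of_ax hl1 hl2 hAx
  obtain ⟨h3, h4⟩ := hw.tiles
  refine ⟨N, hw.hN, ?_, h4⟩
  rw [← h3]
  omega

end Pool.Agent.Helper29.SK
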